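import Pool.Agent.N20.EW.Stm
import Pool.Agent.Y914.NV.Irr

/-!
# Project EW (helper20), part X1 (helper849): invariant irreducible representations extend to cyclic
extensions
-/

set_option autoImplicit false

namespace Pool.Agent.N849.EWX1

open Pool.Agent.Y63.NV Pool.Agent.N20.EW Pool.Agent.Y914.NV Representation
open scoped MonoidAlgebra

theorem irr_iff {F : Type} [Field F] {G : Type} [Group G] {V : Type} [AddCommGroup V] [Module F V]
    (ρ : Representation F G V) :
    ρ.IsIrreducible ↔ Nontrivial V ∧ ∀ W : Submodule F V, (∀ g : G, ∀ v ∈ W, ρ g v ∈ W) →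
      W = ⊥ ∨ W = ⊤ := by
  constructor
  · intro h
    have hnt : Nontrivial (Subrepresentation ρ) := h.toNontrivial
    refine ⟨?_, fun W hW => ?_⟩
    · by_contra hV
      rw [not_nontrivial_iff_subsingleton] at hV
      obtain ⟨a, b, hab⟩ := hnt
      apply hab
      apply Subrepresentation.toSubmodule_injective
      exact Subsingleton.elim _ _
    · rcases h.eq_bot_or_eq_top (⟨W, fun g v hv => hW g v hv⟩ : Subrepresentation ρ) with h1 | h1
      · left
        exact congrArg Subrepresentation.toSubmodule h1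
      · right
        exact congrArg Subrepresentation.toSubmodule h1
  · rintro ⟨hV, h⟩
    have hnt : Nontrivial (Subrepresentation ρ) := by
      refine ⟨⟨⊥, ⊤, fun h1 => ?_⟩⟩
      have h2 : (⊥ : Submodule F V) = ⊤ := congrArg Subrepresentation.toSubmodule h1
      exact bot_ne_top h2
    refine { toNontrivial := hnt, eq_bot_or_eq_top := fun W => ?_ }
    rcases h W.toSubmodule (fun g v hv => W.apply_mem_toSubmodule g hv) with h1 | h1
    · left
      apply Subrepresentation.toSubmodule_injective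
      exact h1
    · right
      apply Subrepresentation.toSubmodule_injective
      exact h1

section alg

variable {F : Type} [Field F] [IsAlgClosed F] {G : Type} [Group G]

/-- Schur -/
theorem schur {V : Type} [AddCommGroup V] [Module F V] [FiniteDimensional F V]
    (ρ : Representation F G V) (hρ : ρ.IsIrreducible) (B : Module.End F V)
    (hB : ∀ g, B * ρ g = ρ g * B) : ∃ c : F, B = c • 1 := by
  obtain ⟨hV, hW⟩ := (irr_iff ρ).1 hρ
  obtain ⟨c, hc⟩ := Module.End.exists_eigenvalue B
  refine ⟨c, ?_⟩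
  rcases hW (B.eigenspace c) (by
    intro g v hv
    rw [Module.End.mem_eigenspace_iff] at hv ⊢
    have h1 := LinearMap.congr_fun (hB g) v
    rw [Module.End.mul_apply, Module.End.mul_apply, hv, map_smul] at h1
    exact h1) with h | h
  · exact absurd h hc
  · ext v
    have hv : v ∈ B.eigenspace c := by
      rw [h]
      trivial
    rw [Module.End.mem_eigenspace_iff] at hv
    rw [hv, LinearMap.smul_apply, Module.End.one_apply]

variable [Finite G]

/-- equal traces: isomorphic -/
theorem iso {V W : Type} [AddCommGroup V] [Module F V] [FiniteDimensional F V]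
    [AddCommGroup W] [Module F W] [FiniteDimensional F W] (ρ : Representation F G V)
    (σ : Representation F G W) (hρ : ρ.IsIrreducible) (hσ : σ.IsIrreducible)
    (h : ρ.character = σ.character) : ∃ e : V ≃ₗ[F] W, ∀ g v, e (ρ g v) = σ g (e v) := by
  have i1 := hρ
  have i2 := hσ
  by_contra hcon
  have hemp : IsEmpty (ρ.asModule ≃ₗ[F[G]] σ.asModule) := by
    refine ⟨fun e => hcon ?_⟩
    let e2 : V ≃ₗ[F] W := ρ.asModuleEquiv.symm.trans ((e.restrictScalars F).trans σ.asModuleEquiv)
    refine ⟨e2, fun g v => ?_⟩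
    show σ.asModuleEquiv (e (ρ.asModuleEquiv.symm (ρ g v))) =
      σ g (σ.asModuleEquiv (e (ρ.asModuleEquiv.symm v)))
    rw [asModuleEquiv_symm_map_rho, map_smul, asModuleEquiv_map_smul, asAlgebraHom_of]
  obtain ⟨a, ha, hb⟩ := pair (F := F) (A := F[G]) hemp
  obtain ⟨x, hx⟩ := trace_one ρ hρ
  have := Fintype.ofFinite G
  obtain ⟨c, hc⟩ := expand (x * a)
  have ha1 : ρ.asAlgebraHom a = 1 := by
    ext v
    rw [act, ha, LinearEquiv.apply_symm_apply, Module.End.one_apply]
  have hb1 : σ.asAlgebraHom a = 0 := by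
    ext v
    rw [act, hb, map_zero, LinearMap.zero_apply]
  have h1 : ∑ g, c g * ρ.character g = 1 := by
    rw [← trace_expand, ← hc, map_mul, ha1, mul_one, hx]
  have h2 : ∑ g, c g * σ.character g = 0 := by
    rw [← trace_expand, ← hc, map_mul, hb1, mul_zero, map_zero]
  rw [h, h2] at h1
  exact zero_ne_one h1

end alg

theorem X1 : S_X1 := by
  classical
  intro F _ _ G K _ _ _ _ i hE φ hφ hinv
  obtain ⟨V, j1, j2, j3, ρ, hρ, rfl⟩ := hφ
  obtain ⟨t, ht⟩ := hE.cyc
  have hinj := hE.inj
  have hnorm := hE.normal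
  -- the automorphism
  have hc0 : ∀ g : G, ∃ y : G, i y = t * i g * t⁻¹ := fun g => hnorm.conj_mem (i g) ⟨g, rfl⟩ t
  choose c hc using hc0
  let cc : G →* G :=
    { toFun := c
      map_one' := by
        apply hinj
        rw [hc, map_one, mul_one, mul_inv_cancel]
      map_mul' := fun x y => by
        apply hinj
        rw [hc, map_mul, map_mul, hc, hc]
        group }
  have hcinj : Function.Injective c := by
    intro x y h
    apply hinj
    have h1 := hc x
    rw [h, hc y] at h1
    have h2 := mul_right_cancel h1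
    exact (mul_left_cancel h2).symm
  have hcsurj : Function.Surjective c := Finite.surjective_of_injective hcinj
  -- the second representation
  obtain ⟨ρc, hρc⟩ : ∃ ρc : Representation F G V, ∀ g, ρc g = ρ (c g) :=
    ⟨MonoidHom.comp ρ cc, fun _ => rfl⟩
  have hρ' : ρc.IsIrreducible := by
    obtain ⟨a1, a2⟩ := (irr_iff ρ).1 hρ
    refine (irr_iff _).2 ⟨a1, fun W hW => a2 W fun g v hv => ?_⟩
    obtain ⟨x, rfl⟩ := hcsurj g
    have := hW x v hv
    rwa [hρc] at this
  have hch : ρ.character = ρc.character := by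
    funext g
    have h1 : ρc.character g = ρ.character (c g) := by
      show LinearMap.trace F V (ρc g) = LinearMap.trace F V (ρ (c g))
      rw [hρc]
    rw [h1]
    exact (hinv t g (c g) (hc g)).symm
  obtain ⟨A, hA⟩ := iso ρ ρc hρ hρ' hch
  obtain ⟨hV, hW⟩ := (irr_iff ρ).1 hρ
  set a : Module.End F V := (A : V →ₗ[F] V) with ha
  have ha1 : ∀ g, a * ρ g = ρ (c g) * a := by
    intro g
    refine LinearMap.ext fun v => ?_
    have := hA g v
    rw [hρc] at this
    exact this
  -- the order
  have := hnorm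
  set n : ℕ := orderOf (QuotientGroup.mk t : K ⧸ i.range) with hn
  have hn0 : 0 < n := orderOf_pos _
  have hdiv : ∀ m : ℕ, t ^ m ∈ i.range → n ∣ m := by
    intro m hm
    rw [hn, orderOf_dvd_iff_pow_eq_one, ← QuotientGroup.mk_pow, QuotientGroup.eq_one_iff]
    exact hm
  obtain ⟨g0, hg0⟩ : t ^ n ∈ i.range := by
    rw [← QuotientGroup.eq_one_iff, QuotientGroup.mk_pow, hn]
    exact pow_orderOf_eq_one _
  -- powers
  have hcm : ∀ (m : ℕ) (g : G), i (c^[m] g) = t ^ m * i g * (t ^ m)⁻¹ := by
    intro m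
    induction m with
    | zero =>
      intro g
      simp
    | succ m ih =>
      intro g
      rw [Function.iterate_succ_apply', hc, ih, pow_succ']
      group
  have ham : ∀ (b : Module.End F V), (∀ g, b * ρ g = ρ (c g) * b) → ∀ (m : ℕ) (g : G),
      b ^ m * ρ g = ρ (c^[m] g) * b ^ m := by
    intro b hb m
    induction m with
    | zero =>
      intro g
      simp
    | succ m ih =>
      intro g
      rw [pow_succ', mul_assoc, ih, ← mul_assoc, hb, mul_assoc, Function.iterate_succ_apply']
  have hcn : ∀ g : G, c^[n] g = g0 * g * g0⁻¹ := by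
    intro g
    apply hinj
    rw [hcm, map_mul, map_mul, map_inv, hg0]
  -- the scalar
  have hgg : ρ g0 * ρ g0⁻¹ = 1 := by rw [← map_mul, mul_inv_cancel, map_one]
  have hgg' : ρ g0⁻¹ * ρ g0 = 1 := by rw [← map_mul, inv_mul_cancel, map_one]
  obtain ⟨l, hl⟩ := schur ρ hρ (ρ g0⁻¹ * a ^ n) (by
    intro g
    rw [mul_assoc, ham a ha1 n g, hcn, map_mul, map_mul, ← mul_assoc, ← mul_assoc, ← mul_assoc,
      hgg', one_mul, mul_assoc])
  have hl' : a ^ n = l • ρ g0 := by
    have h1 : ρ g0 * (ρ g0⁻¹ * a ^ n) = ρ g0 * (l • 1) := by rw [hl]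
    rw [← mul_assoc, hgg, one_mul, mul_smul_comm, mul_one] at h1
    exact h1
  have hl0 : l ≠ 0 := by
    intro h0
    rw [h0, zero_smul] at hl'
    obtain ⟨v, hv⟩ := exists_ne (0 : V)
    have hinjm : ∀ m : ℕ, ∀ v : V, v ≠ 0 → (a ^ m) v ≠ 0 := by
      intro m
      induction m with
      | zero =>
        intro v hv
        simpa using hv
      | succ m ih =>
        intro v hv
        rw [pow_succ, Module.End.mul_apply]
        apply ih
        intro h1
        exact hv ((LinearEquiv.map_eq_zero_iff A).1 h1)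
    apply hinjm n v hv
    rw [hl', LinearMap.zero_apply]
  obtain ⟨μ, hμ⟩ := IsAlgClosed.exists_pow_nat_eq l hn0
  have hμ0 : μ ≠ 0 := by
    rintro rfl
    rw [zero_pow hn0.ne'] at hμ
    exact hl0 hμ.symm
  obtain ⟨b, hb⟩ : ∃ b : Module.End F V, b = μ⁻¹ • a := ⟨_, rfl⟩
  have hb1 : ∀ g, b * ρ g = ρ (c g) * b := by
    intro g
    rw [hb, smul_mul_assoc, ha1, mul_smul_comm]
  have hbn : b ^ n = ρ g0 := by
    rw [hb, smul_pow, hl', smul_smul, inv_pow, hμ, inv_mul_cancel₀ hl0, one_smul]
  have hbm := ham b hb1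
  -- the extension
  have hex : ∀ k : K, ∃ (m : ℕ) (g : G), k = t ^ m * i g := by
    intro k
    obtain ⟨z, g, hzg⟩ := ht k
    obtain ⟨m, hm⟩ : t ^ z ∈ Submonoid.powers t := mem_powers_iff_mem_zpowers.2 ⟨z, rfl⟩
    have hm' : t ^ m = t ^ z := hm
    exact ⟨m, g, by rw [hm']; exact hzg⟩
  choose mk gk hk using hex
  have hwd' : ∀ (m d : ℕ) (g g' : G), t ^ m * i g = t ^ (m + d) * i g' →
      b ^ m * ρ g = b ^ (m + d) * ρ g' := by
    intro m d g g' h
    rw [pow_add, mul_assoc] at h
    have h1 := mul_left_cancel h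
    have h2 : t ^ d ∈ i.range := ⟨g * g'⁻¹, by rw [map_mul, map_inv, h1]; group⟩
    obtain ⟨q, rfl⟩ := hdiv d h2
    have h3 : g = g0 ^ q * g' := by
      apply hinj
      rw [h1, map_mul, map_pow, hg0, pow_mul]
    rw [pow_add, mul_assoc, h3, map_mul, map_pow, pow_mul, hbn]
  have hwd : ∀ (m m' : ℕ) (g g' : G), t ^ m * i g = t ^ m' * i g' →
      b ^ m * ρ g = b ^ m' * ρ g' := by
    intro m m' g g' h
    rcases le_total m m' with h1 | h1
    · obtain ⟨d, rfl⟩ := Nat.exists_eq_add_of_le h1
      exact hwd' m d g g' h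
    · obtain ⟨d, rfl⟩ := Nat.exists_eq_add_of_le h1
      exact (hwd' m' d g' g h.symm).symm
  let f : K → Module.End F V := fun k => b ^ mk k * ρ (gk k)
  have hf : ∀ (m : ℕ) (g : G), f (t ^ m * i g) = b ^ m * ρ g := fun m g =>
    hwd _ _ _ _ (hk (t ^ m * i g)).symm
  have hfi : ∀ g : G, f (i g) = ρ g := by
    intro g
    have := hf 0 g
    rwa [pow_zero, one_mul, pow_zero, one_mul] at this
  have hcmsurj : ∀ m : ℕ, Function.Surjective (c^[m]) := fun m => hcsurj.iterate m
  let R : Representation F K V :=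
    { toFun := f
      map_one' := by
        have := hfi 1
        rwa [map_one, map_one] at this
      map_mul' := fun k k' => by
        obtain ⟨m, g, rfl⟩ : ∃ (m : ℕ) (g : G), k = t ^ m * i g := ⟨_, _, hk k⟩
        obtain ⟨m', g', rfl⟩ : ∃ (m : ℕ) (g : G), k' = t ^ m * i g := ⟨_, _, hk k'⟩
        obtain ⟨h, rfl⟩ := hcmsurj m' g
        have e1 : t ^ m * i (c^[m'] h) * (t ^ m' * i g') = t ^ (m + m') * i (h * g') := by
          rw [hcm, map_mul, pow_add]
          group
        rw [e1, hf, hf, hf, map_mul, pow_add]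
        calc b ^ m * b ^ m' * (ρ h * ρ g') = b ^ m * (b ^ m' * ρ h) * ρ g' := by
              simp only [mul_assoc]
          _ = b ^ m * (ρ (c^[m'] h) * b ^ m') * ρ g' := by rw [hbm]
          _ = b ^ m * ρ (c^[m'] h) * (b ^ m' * ρ g') := by simp only [mul_assoc] }
  have hRi : ∀ g : G, R (i g) = ρ g := hfi
  refine ⟨R.character, ⟨V, j1, j2, j3, R, ?_, rfl⟩, fun g => ?_⟩
  · refine (irr_iff R).2 ⟨hV, fun W hWR => hW W fun g v hv => ?_⟩
    have := hWR (i g) v hv
    rwa [hRi] at this
  · show LinearMap.trace F V (R (i g)) = LinearMap.trace F V (ρ g)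
    rw [hRi]

end Pool.Agent.N849.EWX1
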