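import Pool.Agent.N502.FR.Stm

/-!
# FR/PTH: the elements below an element of a rooted forest, and their hook lengths
-/

set_option autoImplicit false

open Finset

namespace Pool.Agent.N849.FR_PTH

open Pool.Agent.N502.FR

section

variable {P : Type} [Fintype P] [PartialOrder P]

theorem hk_anti {u v : P} (h : u ≤ v) : hk v ≤ hk u := by
  classical
  unfold hk
  apply card_le_card
  intro z hz
  simp only [mem_filter, mem_univ, true_and] at hz ⊢
  exact h.trans hz

theorem hk_strict {u v : P} (h : u < v) : hk v < hk u := by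
  classical
  unfold hk
  apply card_lt_card
  rw [Finset.ssubset_iff_of_subset]
  · refine ⟨u, ?_, ?_⟩
    · simp
    · simp only [mem_filter, mem_univ, true_and]
      exact not_le_of_gt h
  · intro z hz
    simp only [mem_filter, mem_univ, true_and] at hz ⊢
    exact h.le.trans hz

theorem hk_pos (u : P) : 1 ≤ hk u := by
  classical
  unfold hk
  apply card_pos.mpr
  exact ⟨u, by simp⟩

theorem hk_max {x : P} (h : ∀ z, x ≤ z → z = x) : hk x = 1 := by
  classical
  unfold hk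
  rw [card_eq_one]
  refine ⟨x, ?_⟩
  ext z
  simp only [mem_filter, mem_univ, true_and, mem_singleton]
  constructor
  · exact h z
  · rintro rfl
    exact le_refl _

theorem mem_ux {x y : P} {a : ℕ} : a ∈ ux x y ↔ ∃ u : P, (u ≤ x ∧ ¬ u ≤ y) ∧ hk u = a := by
  classical
  unfold ux
  simp only [mem_image, mem_filter, mem_univ, true_and]

theorem mem_sh {x y : P} {a : ℕ} : a ∈ sh x y ↔ ∃ u : P, (u ≤ x ∧ u ≤ y) ∧ hk u = a := by
  classical
  unfold sh
  simp only [mem_image, mem_filter, mem_univ, true_and]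

theorem mem_HH {x : P} {a : ℕ} : a ∈ HH x ↔ ∃ u : P, u ≤ x ∧ hk u = a := by
  classical
  unfold HH
  simp only [mem_image, mem_filter, mem_univ, true_and]

theorem hk_iff (hP : DFor P) {x u v : P} (hu : u ≤ x) (hv : v ≤ x) : hk v ≤ hk u ↔ u ≤ v := by
  constructor
  · intro h
    by_contra hn
    rcases hP x u v hu hv with h1 | h1
    · exact hn h1
    · have h2 : v < u := lt_of_le_not_ge h1 hn
      have := hk_strict h2
      omega
  · exact hk_anti

theorem ux_lt_sh (hP : DFor P) (x y : P) : ∀ a ∈ ux x y, ∀ s ∈ sh x y, a < s := by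
  intro a ha s hs
  obtain ⟨u, ⟨hu1, hu2⟩, rfl⟩ := mem_ux.mp ha
  obtain ⟨v, ⟨hv1, hv2⟩, rfl⟩ := mem_sh.mp hs
  by_contra hn
  have h1 : hk v ≤ hk u := not_lt.mp hn
  exact hu2 (((hk_iff hP hu1 hv1).mp h1).trans hv2)

end

theorem main : S_PTH := by
  intro P _ _ hP
  refine ⟨?_, ?_, ?_, ?_, ?_, ?_, ?_⟩
  · intro x u v hu hv
    exact hk_iff hP hu hv
  · intro x y
    constructor
    · intro a ha
      obtain ⟨u, _, rfl⟩ := mem_ux.mp ha
      exact hk_pos u
    · intro a ha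
      obtain ⟨u, _, rfl⟩ := mem_HH.mp ha
      exact hk_pos u
  · intro x y
    constructor
    · ext a
      rw [mem_union, mem_ux, mem_sh, mem_HH]
      constructor
      · rintro ⟨u, hu, rfl⟩
        by_cases h : u ≤ y
        · exact Or.inr ⟨u, ⟨hu, h⟩, rfl⟩
        · exact Or.inl ⟨u, ⟨hu, h⟩, rfl⟩
      · rintro (⟨u, ⟨hu, _⟩, rfl⟩ | ⟨u, ⟨hu, _⟩, rfl⟩)
        · exact ⟨u, hu, rfl⟩
        · exact ⟨u, hu, rfl⟩
    · rw [Finset.disjoint_left]
      intro a ha hs
      exact lt_irrefl a (ux_lt_sh hP x y a ha a hs)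
  · intro x y
    exact ux_lt_sh hP x y
  · intro x hx
    constructor
    · exact mem_HH.mpr ⟨x, le_refl x, hk_max hx⟩
    · intro y hy
      exact mem_ux.mpr ⟨x, ⟨le_refl x, hy⟩, hk_max hx⟩
  · intro x y u hu hn
    constructor
    · ext a
      rw [mem_ux, mem_ux]
      constructor
      · rintro ⟨v, ⟨hv, hvu⟩, rfl⟩
        refine ⟨v, ⟨hv, ?_⟩, rfl⟩
        intro hvy
        rcases hP y u v hu hvy with h1 | h1
        · exact hn (h1.trans hv)
        · exact hvu h1
      · rintro ⟨v, ⟨hv, hvy⟩, rfl⟩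
        exact ⟨v, ⟨hv, fun h => hvy (h.trans hu)⟩, rfl⟩
    · ext a
      rw [mem_filter, mem_ux, mem_ux]
      constructor
      · rintro ⟨v, ⟨hv, hvx⟩, rfl⟩
        exact ⟨⟨v, ⟨hv.trans hu, hvx⟩, rfl⟩, hk_anti hv⟩
      · rintro ⟨⟨v, ⟨hv, hvx⟩, rfl⟩, h⟩
        exact ⟨v, ⟨(hk_iff hP hv hu).mp h, hvx⟩, rfl⟩
  · intro x y b hb
    obtain ⟨u, ⟨hu1, hu2⟩, rfl⟩ := mem_ux.mp hb
    exact ⟨u, hu1, hu2, rfl⟩

end Pool.Agent.N849.FR_PTH
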