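import Mathlib

/-!
# A commuting family of endomorphisms of a nonzero finite dimensional complex vector space has a
common eigenvector
-/

set_option autoImplicit false

namespace Pool.Agent.N849.CommonEv

theorem exists_common_eigenvector {V : Type*} [AddCommGroup V] [Module ℂ V]
    [FiniteDimensional ℂ V] [Nontrivial V] (S : Set (Module.End ℂ V))
    (hS : ∀ a ∈ S, ∀ b ∈ S, Commute a b) :
    ∃ v : V, v ≠ 0 ∧ ∀ a ∈ S, ∃ c : ℂ, a v = c • v := by
  obtain ⟨W, ⟨hW0, hWinv⟩, hWmin⟩ := (wellFounded_lt (α := Submodule ℂ V)).has_min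
    {W : Submodule ℂ V | W ≠ ⊥ ∧ ∀ a ∈ S, ∀ w ∈ W, a w ∈ W} ⟨⊤, top_ne_bot, by simp⟩
  obtain ⟨v, hvW, hv0⟩ := (Submodule.ne_bot_iff W).1 hW0
  refine ⟨v, hv0, fun a ha => ?_⟩
  have : Nontrivial W := Submodule.nontrivial_iff_ne_bot.2 hW0
  obtain ⟨c, hc⟩ := Module.End.exists_eigenvalue (LinearMap.restrict a (hWinv a ha))
  obtain ⟨w, hw⟩ := hc.exists_hasEigenvector
  refine ⟨c, ?_⟩
  set W' : Submodule ℂ V := W ⊓ Module.End.eigenspace a c with hW'
  have h1 : W' ≠ ⊥ := by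
    rw [Submodule.ne_bot_iff]
    refine ⟨w, ⟨w.2, ?_⟩, ?_⟩
    · rw [SetLike.mem_coe, Module.End.mem_eigenspace_iff]
      have := hw.apply_eq_smul
      have := congrArg Subtype.val this
      simpa using this
    · intro h
      exact hw.2 (Subtype.ext h)
  have h2 : ∀ b ∈ S, ∀ w ∈ W', b w ∈ W' := by
    rintro b hb w ⟨hw1, hw2⟩
    refine ⟨hWinv b hb w hw1, ?_⟩
    rw [SetLike.mem_coe, Module.End.mem_eigenspace_iff] at hw2 ⊢
    have h3 : a (b w) = b (a w) := by
      have := hS a ha b hb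
      exact congrArg (fun f : Module.End ℂ V => f w) this.eq
    rw [h3, hw2, map_smul]
  have h3 : ¬ W' < W := hWmin W' ⟨h1, h2⟩
  have h4 : W' = W := by
    by_contra h
    exact h3 (lt_of_le_of_ne inf_le_left h)
  have h5 : v ∈ W' := by rw [h4]; exact hvW
  exact Module.End.mem_eigenspace_iff.1 h5.2

end Pool.Agent.N849.CommonEv
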