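import Mathlib

/-!
# The Hecke operator `T_p` on level one functions on the upper half plane
-/

set_option autoImplicit false

namespace Pool.Agent.N849.Hecke

open UpperHalfPlane Matrix MatrixGroups Finset

noncomputable def tmat (p : ℕ) (hp : p ≠ 0) : GL (Fin 2) ℝ :=
  GeneralLinearGroup.mkOfDetNeZero !![(p : ℝ), 0; 0, 1] (by simp [hp])

noncomputable def smat (p : ℕ) (hp : p ≠ 0) (b : ℕ) : GL (Fin 2) ℝ :=
  GeneralLinearGroup.mkOfDetNeZero !![1, (b : ℝ); 0, (p : ℝ)] (by simp [hp])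

/-- `(T_p f)(z) = f(p z) + ∑_{b < p} f((z + b) / p)` -/
noncomputable def heckeOp (p : ℕ) (hp : p ≠ 0) (f : ℍ → ℂ) (z : ℍ) : ℂ :=
  f (tmat p hp • z) + ∑ b ∈ Finset.range p, f (smat p hp b • z)

/-- level one invariance and oddness, `J` = reflection `z ↦ -z̄` (`UpperHalfPlane.J`) -/
structure Eqv (f : ℍ → ℂ) : Prop where
  inv : ∀ (γ : SL(2, ℤ)) (z : ℍ), f (γ • z) = f z
  odd : ∀ z : ℍ, f (UpperHalfPlane.J • z) = - f z

lemma coe_tmat_smul (p : ℕ) (hp : p ≠ 0) (z : ℍ) : ((tmat p hp • z : ℍ) : ℂ) = p * z := by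
  have h : 0 < (tmat p hp).det.val := by
    have : (tmat p hp).det.val = p := by
      simp [tmat, GeneralLinearGroup.mkOfDetNeZero]
    rw [this]
    exact_mod_cast Nat.pos_of_ne_zero hp
  rw [coe_smul_of_det_pos h]
  simp [num, denom, tmat, GeneralLinearGroup.mkOfDetNeZero]

lemma coe_smat_smul (p : ℕ) (hp : p ≠ 0) (b : ℕ) (z : ℍ) :
    ((smat p hp b • z : ℍ) : ℂ) = (z + b) / p := by
  have h : 0 < (smat p hp b).det.val := by
    have : (smat p hp b).det.val = p := by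
      simp [smat, GeneralLinearGroup.mkOfDetNeZero]
    rw [this]
    exact_mod_cast Nat.pos_of_ne_zero hp
  rw [coe_smul_of_det_pos h]
  simp [num, denom, smat, GeneralLinearGroup.mkOfDetNeZero]

/-- the extension of `f` to the complex plane -/
noncomputable def ext' (f : ℍ → ℂ) (w : ℂ) : ℂ := f (ofComplex w)

lemma ext'_coe (f : ℍ → ℂ) (z : ℍ) : ext' f (z : ℂ) = f z := by
  rw [ext', ofComplex_apply]

lemma heckeOp_eq (p : ℕ) (hp : p ≠ 0) (f : ℍ → ℂ) (z : ℍ) :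
    heckeOp p hp f z = ext' f (p * z) + ∑ b ∈ Finset.range p, ext' f ((z + b) / p) := by
  unfold heckeOp
  rw [← coe_tmat_smul p hp, ext'_coe]
  congr 1
  refine Finset.sum_congr rfl fun b _ => ?_
  rw [← coe_smat_smul p hp, ext'_coe]

lemma ext'_heckeOp (p : ℕ) (hp : p ≠ 0) (f : ℍ → ℂ) {w : ℂ} (hw : 0 < w.im) :
    ext' (heckeOp p hp f) w = ext' f (p * w) + ∑ b ∈ Finset.range p, ext' f ((w + b) / p) := by
  have h : ((⟨w, hw⟩ : ℍ) : ℂ) = w := rfl
  conv_lhs => rw [← h, ext'_coe, heckeOp_eq]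

lemma ext'_add_one {f : ℍ → ℂ} (hf : ∀ z, f ((1 : ℝ) +ᵥ z) = f z) {w : ℂ} (hw : 0 < w.im) :
    ext' f (w + 1) = ext' f w := by
  have h : ((⟨w, hw⟩ : ℍ) : ℂ) = w := rfl
  have h2 : (((1 : ℝ) +ᵥ (⟨w, hw⟩ : ℍ) : ℍ) : ℂ) = w + 1 := by
    rw [coe_vadd, h]
    push_cast
    ring
  rw [← h2, ext'_coe, hf]
  conv_rhs => rw [← h, ext'_coe]

lemma ext'_add_nat {f : ℍ → ℂ} (hf : ∀ z, f ((1 : ℝ) +ᵥ z) = f z) {w : ℂ} (hw : 0 < w.im)
    (n : ℕ) : ext' f (w + n) = ext' f w := by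
  induction n with
  | zero => simp
  | succ n ih =>
    rw [Nat.cast_succ, ← add_assoc, ext'_add_one hf (by simpa using hw), ih]

lemma ext'_add_int {f : ℍ → ℂ} (hf : ∀ z, f ((1 : ℝ) +ᵥ z) = f z) {w : ℂ} (hw : 0 < w.im)
    (n : ℤ) : ext' f (w + n) = ext' f w := by
  obtain ⟨m, rfl | rfl⟩ := n.eq_nat_or_neg
  · simpa using ext'_add_nat hf hw m
  · have := ext'_add_nat hf (w := w + ((-(m : ℤ) : ℤ) : ℂ)) (by simpa using hw) m
    rw [← this]
    push_cast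
    congr 1
    ring

lemma im_div_pos {w : ℂ} (hw : 0 < w.im) {p : ℕ} (hp : 0 < p) (b : ℤ) :
    0 < ((w + b) / p).im := by
  have : ((w + b) / (p : ℂ)).im = w.im / p := by
    rw [Complex.div_natCast_im]
    simp
  rw [this]
  positivity

/-- periodicity of `b ↦ f((w+b)/p)` modulo `p` -/
lemma ext'_div_congr {f : ℍ → ℂ} (hf : ∀ z, f ((1 : ℝ) +ᵥ z) = f z) {w : ℂ} (hw : 0 < w.im)
    {p : ℕ} (hp : 0 < p) {a b : ℤ} (hab : (a : ZMod p) = (b : ZMod p)) :
    ext' f ((w + a) / p) = ext' f ((w + b) / p) := by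
  rw [ZMod.intCast_eq_intCast_iff_dvd_sub] at hab
  obtain ⟨k, hk⟩ := hab
  have hb : b = a + p * k := by linarith
  have hp' : (p : ℂ) ≠ 0 := by exact_mod_cast hp.ne'
  have h : (w + b) / (p : ℂ) = (w + a) / p + k := by
    rw [hb]
    push_cast
    field_simp
    ring
  rw [h, ext'_add_int hf (im_div_pos hw hp a)]

lemma sum_range_eq_zmod (p : ℕ) [NeZero p] (g : ℕ → ℂ) :
    ∑ b ∈ Finset.range p, g b = ∑ x : ZMod p, g x.val := by
  refine Finset.sum_nbij' (fun b => (b : ZMod p)) (fun x => x.val) ?_ ?_ ?_ ?_ ?_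
  · intro a _; exact Finset.mem_univ _
  · intro x _; exact Finset.mem_range.2 (ZMod.val_lt x)
  · intro a ha
    exact ZMod.val_natCast_of_lt (Finset.mem_range.1 ha)
  · intro x _
    exact ZMod.natCast_zmod_val x
  · intro a ha
    rw [ZMod.val_natCast_of_lt (Finset.mem_range.1 ha)]

/-- reindexing of the sum over residues modulo `p` -/
lemma sum_reindex {f : ℍ → ℂ} (hf : ∀ z, f ((1 : ℝ) +ᵥ z) = f z) {w : ℂ} (hw : 0 < w.im)
    {p : ℕ} (hp : 0 < p) (e : ℕ → ℤ) (σ' : Equiv.Perm (ZMod p))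
    (he : ∀ x : ZMod p, ((e x.val : ℤ) : ZMod p) = σ' x) :
    ∑ b ∈ Finset.range p, ext' f ((w + e b) / p) = ∑ b ∈ Finset.range p, ext' f ((w + b) / p) := by
  have : NeZero p := ⟨hp.ne'⟩
  rw [sum_range_eq_zmod p (fun b => ext' f ((w + e b) / p)),
    sum_range_eq_zmod p (fun b => ext' f ((w + b) / p)),
    ← Equiv.sum_comp σ' (fun x : ZMod p => ext' f ((w + x.val) / p))]
  refine Finset.sum_congr rfl fun x _ => ?_
  have := ext'_div_congr hf hw hp (a := e x.val) (b := ((σ' x).val : ℤ)) (by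
    rw [he]
    simp)
  rw [this]
  simp


lemma ext'_sl {f : ℍ → ℂ} (hf : ∀ (γ : SL(2, ℤ)) (z : ℍ), f (γ • z) = f z) {w : ℂ}
    (hw : 0 < w.im) (a b c d : ℤ) (h : a * d - b * c = 1) :
    ext' f ((a * w + b) / (c * w + d)) = ext' f w := by
  set γ : SL(2, ℤ) := ⟨!![a, b; c, d], by rw [Matrix.det_fin_two_of]; exact h⟩ with hγ
  have h1 : ((γ • (⟨w, hw⟩ : ℍ) : ℍ) : ℂ) = (a * w + b) / (c * w + d) := by
    rw [coe_specialLinearGroup_apply]
    simp [hγ]
  rw [← h1, ext'_coe, hf]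
  have h : ((⟨w, hw⟩ : ℍ) : ℂ) = w := rfl
  conv_rhs => rw [← h, ext'_coe]

lemma periodic_of_inv {f : ℍ → ℂ} (hf : ∀ (γ : SL(2, ℤ)) (z : ℍ), f (γ • z) = f z) (z : ℍ) :
    f ((1 : ℝ) +ᵥ z) = f z := by
  rw [← modular_T_smul, hf]

lemma im_mul_pos {w : ℂ} (hw : 0 < w.im) {p : ℕ} (hp : 0 < p) : 0 < ((p : ℂ) * w).im := by
  have : ((p : ℂ) * w).im = p * w.im := by simp [Complex.mul_im]
  rw [this]
  positivity

lemma heckeOp_periodic {p : ℕ} (hp : p ≠ 0) {f : ℍ → ℂ} (hf : ∀ z, f ((1 : ℝ) +ᵥ z) = f z)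
    (z : ℍ) : heckeOp p hp f ((1 : ℝ) +ᵥ z) = heckeOp p hp f z := by
  have hp0 : 0 < p := Nat.pos_of_ne_zero hp
  rw [heckeOp_eq, heckeOp_eq]
  have hz : (((1 : ℝ) +ᵥ z : ℍ) : ℂ) = z + 1 := by
    rw [coe_vadd]
    push_cast
    ring
  rw [hz]
  have h1 : ext' f (p * ((z : ℂ) + 1)) = ext' f (p * z) := by
    have := ext'_add_nat hf (im_mul_pos z.im_pos hp0) p
    rw [← this]
    congr 1
    ring
  have h2 := sum_reindex hf z.im_pos hp0 (fun b => (b : ℤ) + 1) (Equiv.addRight (1 : ZMod p))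
    (fun x => by
      have : NeZero p := ⟨hp⟩
      simp)
  rw [h1]
  congr 1
  rw [← h2]
  refine Finset.sum_congr rfl fun b _ => ?_
  congr 2
  push_cast
  ring

lemma heckeOp_S {p : ℕ} (hp : p.Prime) {f : ℍ → ℂ}
    (hf : ∀ (γ : SL(2, ℤ)) (z : ℍ), f (γ • z) = f z) (z : ℍ) :
    heckeOp p hp.ne_zero f (ModularGroup.S • z) = heckeOp p hp.ne_zero f z := by
  have hp0 : 0 < p := hp.pos
  have hpc : (p : ℂ) ≠ 0 := by exact_mod_cast hp0.ne'
  have : NeZero p := ⟨hp0.ne'⟩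
  have : Fact p.Prime := ⟨hp⟩
  have hper := periodic_of_inv hf
  have hz0 : (z : ℂ) ≠ 0 := ne_zero z
  rw [heckeOp_eq, heckeOp_eq]
  have hz : ((ModularGroup.S • z : ℍ) : ℂ) = (-z : ℂ)⁻¹ := by
    rw [modular_S_smul]
  rw [hz]
  -- the term `f (p * S z)`
  have h1 : ext' f (p * (-(z : ℂ))⁻¹) = ext' f (z / p) := by
    have hw : 0 < ((z : ℂ) / p).im := by simpa using im_div_pos z.im_pos hp0 0
    have := ext'_sl hf hw 0 (-1) 1 0 (by norm_num)
    rw [← this]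
    congr 1
    push_cast
    rw [zero_mul, zero_add, one_mul, add_zero, div_div_eq_mul_div, inv_neg]
    ring
  -- the term `f (S z / p)`
  have h2 : ext' f ((-(z : ℂ))⁻¹ / p) = ext' f (p * z) := by
    have := ext'_sl hf (im_mul_pos z.im_pos hp0) 0 (-1) 1 0 (by norm_num)
    rw [← this]
    congr 1
    push_cast
    field_simp
    ring
  -- the terms `f ((S z + b) / p)`
  have h3 : ∀ x : ZMod p, x ≠ 0 → ext' f (((-(z : ℂ))⁻¹ + x.val) / p) =
      ext' f ((z + (-x⁻¹).val) / p) := by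
    intro x hx
    have hdvd : (p : ℤ) ∣ 1 + (x.val : ℤ) * ((-x⁻¹).val : ℤ) := by
      rw [← ZMod.intCast_zmod_eq_zero_iff_dvd]
      push_cast
      rw [ZMod.natCast_zmod_val, ZMod.natCast_zmod_val]
      field_simp
      ring
    obtain ⟨k, hk⟩ := hdvd
    have hw : 0 < (((z : ℂ) + (((-x⁻¹).val : ℤ) : ℂ)) / p).im := im_div_pos z.im_pos hp0 _
    have := ext'_sl hf hw (x.val : ℤ) (-k) p (-((-x⁻¹).val : ℤ)) (by linarith)
    have hk' : (1 : ℂ) + (x.val : ℂ) * ((-x⁻¹).val : ℂ) = p * k := by exact_mod_cast hk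
    have e1 : (((z : ℂ) + (((-x⁻¹).val : ℤ) : ℂ)) / p) = (z + (-x⁻¹).val) / p := by push_cast; rfl
    rw [e1] at this
    rw [← this]
    congr 1
    push_cast
    have e2 : (p : ℂ) * ((z + ((-x⁻¹).val : ℂ)) / p) + -((-x⁻¹).val : ℂ) = z := by
      field_simp
      ring
    rw [e2]
    clear e2 e1 this hw
    generalize ((-x⁻¹).val : ℂ) = y at *
    generalize (x.val : ℂ) = y' at *
    generalize (z : ℂ) = w at *
    field_simp
    linear_combination -hk'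
  rw [sum_range_eq_zmod p (fun b => ext' f (((-(z : ℂ))⁻¹ + b) / p)),
    sum_range_eq_zmod p (fun b => ext' f (((z : ℂ) + b) / p)),
    ← Finset.add_sum_erase _ _ (Finset.mem_univ (0 : ZMod p)),
    ← Finset.add_sum_erase _ _ (Finset.mem_univ (0 : ZMod p))]
  have h4 : ∑ x ∈ (Finset.univ.erase (0 : ZMod p)), ext' f (((-(z : ℂ))⁻¹ + x.val) / p) =
      ∑ x ∈ (Finset.univ.erase (0 : ZMod p)), ext' f ((z + x.val) / p) := by
    refine Finset.sum_nbij' (fun x => -x⁻¹) (fun x => -x⁻¹) ?_ ?_ ?_ ?_ ?_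
    · intro x hx
      simpa using hx
    · intro x hx
      simpa using hx
    · intro x hx
      simp [inv_neg]
    · intro x hx
      simp [inv_neg]
    · intro x hx
      exact h3 x (by simpa using hx)
  rw [h4]
  simp only [ZMod.val_zero, Nat.cast_zero, add_zero]
  rw [h1, h2]
  ring

theorem heckeOp_inv {p : ℕ} (hp : p.Prime) {f : ℍ → ℂ}
    (hf : ∀ (γ : SL(2, ℤ)) (z : ℍ), f (γ • z) = f z) (γ : SL(2, ℤ)) (z : ℍ) :
    heckeOp p hp.ne_zero f (γ • z) = heckeOp p hp.ne_zero f z := by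
  have hγ : γ ∈ Subgroup.closure {ModularGroup.S, ModularGroup.T} := by
    rw [SpecialLinearGroup.SL2Z_generators]
    exact Subgroup.mem_top γ
  induction hγ using Subgroup.closure_induction generalizing z with
  | mem x hx =>
    rcases hx with rfl | hx
    · exact heckeOp_S hp hf z
    · rw [Set.mem_singleton_iff] at hx
      rw [hx, modular_T_smul]
      exact heckeOp_periodic hp.ne_zero (periodic_of_inv hf) z
  | one => rw [one_smul]
  | mul x y _ _ hx hy => rw [mul_smul, hx, hy]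
  | inv x _ hx =>
    have := hx (x⁻¹ • z)
    rw [smul_inv_smul] at this
    exact this.symm

lemma ext'_conj {f : ℍ → ℂ} (hf : ∀ z : ℍ, f (UpperHalfPlane.J • z) = - f z) {w : ℂ}
    (hw : 0 < w.im) : ext' f (-(starRingEnd ℂ) w) = - ext' f w := by
  have h : ((⟨w, hw⟩ : ℍ) : ℂ) = w := rfl
  have h2 : ((UpperHalfPlane.J • (⟨w, hw⟩ : ℍ) : ℍ) : ℂ) = -(starRingEnd ℂ) w := by
    rw [coe_J_smul]
  rw [← h2, ext'_coe, hf]
  conv_rhs => rw [← h, ext'_coe]

theorem heckeOp_odd {p : ℕ} (hp : p ≠ 0) {f : ℍ → ℂ} (hf : ∀ z, f ((1 : ℝ) +ᵥ z) = f z)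
    (hodd : ∀ z : ℍ, f (UpperHalfPlane.J • z) = - f z) (z : ℍ) :
    heckeOp p hp f (UpperHalfPlane.J • z) = - heckeOp p hp f z := by
  have hp0 : 0 < p := Nat.pos_of_ne_zero hp
  have : NeZero p := ⟨hp⟩
  rw [heckeOp_eq, heckeOp_eq, coe_J_smul]
  have h1 : ext' f (p * -(starRingEnd ℂ) (z : ℂ)) = - ext' f (p * z) := by
    rw [← ext'_conj hodd (im_mul_pos z.im_pos hp0)]
    congr 1
    rw [map_mul, map_natCast]
    ring
  have h2 : ∀ b : ℕ, ext' f ((-(starRingEnd ℂ) (z : ℂ) + b) / p) =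
      - ext' f ((z + ((-(b : ℤ) : ℤ) : ℂ)) / p) := by
    intro b
    rw [← ext'_conj hodd (im_div_pos z.im_pos hp0 (-(b : ℤ)))]
    congr 1
    rw [map_div₀, map_add, map_natCast, map_intCast]
    push_cast
    ring
  have h3 := sum_reindex hf z.im_pos hp0 (fun b => -(b : ℤ)) (Equiv.neg (ZMod p))
    (fun x => by simp)
  rw [h1, Finset.sum_congr rfl fun b _ => h2 b, Finset.sum_neg_distrib, h3]
  ring

theorem heckeOp_eqv (p : ℕ) (hp : p.Prime) (f : ℍ → ℂ) (hf : Eqv f) :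
    Eqv (heckeOp p hp.ne_zero f) where
  inv := heckeOp_inv hp hf.inv
  odd := heckeOp_odd hp.ne_zero (periodic_of_inv hf.inv) hf.odd

lemma sum_sum_range (p q : ℕ) (g : ℕ → ℂ) :
    ∑ c ∈ Finset.range q, ∑ b ∈ Finset.range p, g (b + p * c) =
      ∑ e ∈ Finset.range (p * q), g e := by
  induction q with
  | zero => simp
  | succ n ih =>
    rw [Finset.sum_range_succ, ih, Nat.mul_succ, Finset.sum_range_add]
    congr 1
    refine Finset.sum_congr rfl fun b _ => ?_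
    rw [add_comm]

/-- the symmetric expression of `T_p T_q f` -/
lemma heckeOp_heckeOp (p q : ℕ) (hp : p.Prime) (hq : q.Prime) (hpq : p ≠ q) (f : ℍ → ℂ)
    (hf : ∀ z, f ((1 : ℝ) +ᵥ z) = f z) (z : ℍ) :
    heckeOp p hp.ne_zero (heckeOp q hq.ne_zero f) z =
      ext' f ((q * p : ℕ) * z) + (∑ c ∈ Finset.range q, ext' f ((p * z + c) / q) +
      ∑ b ∈ Finset.range p, ext' f ((q * z + b) / p)) +
      ∑ e ∈ Finset.range (p * q), ext' f ((z + e) / (p * q : ℕ)) := by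
  have hp0 : 0 < p := hp.pos
  have hq0 : 0 < q := hq.pos
  have hpc : (p : ℂ) ≠ 0 := by exact_mod_cast hp0.ne'
  have hqc : (q : ℂ) ≠ 0 := by exact_mod_cast hq0.ne'
  have : NeZero p := ⟨hp0.ne'⟩
  have hzp : 0 < ((p : ℂ) * z).im := im_mul_pos z.im_pos hp0
  have hzb : ∀ b : ℕ, 0 < (((z : ℂ) + b) / p).im := fun b => by
    simpa using im_div_pos z.im_pos hp0 b
  rw [heckeOp_eq, ext'_heckeOp q hq.ne_zero f hzp,
    Finset.sum_congr rfl fun b _ => ext'_heckeOp q hq.ne_zero f (hzb b), Finset.sum_add_distrib]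
  have h1 : ext' f (q * (p * (z : ℂ))) = ext' f ((q * p : ℕ) * z) := by
    congr 1
    push_cast
    ring
  have hcop : IsUnit (q : ZMod p) := by
    rw [ZMod.isUnit_iff_coprime]
    exact (Nat.coprime_primes hq hp).2 hpq.symm
  obtain ⟨u, hu⟩ := hcop
  have h2 := sum_reindex hf (im_mul_pos z.im_pos hq0) hp0 (fun b => (q : ℤ) * b) (Units.mulLeft u)
    (fun x => by simp [hu])
  have h3 : ∑ b ∈ Finset.range p, ext' f (q * (((z : ℂ) + b) / p)) =
      ∑ b ∈ Finset.range p, ext' f ((q * z + b) / p) := by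
    rw [← h2]
    refine Finset.sum_congr rfl fun b _ => ?_
    congr 1
    push_cast
    ring
  have h4 : ∑ b ∈ Finset.range p, ∑ c ∈ Finset.range q, ext' f ((((z : ℂ) + b) / p + c) / q) =
      ∑ e ∈ Finset.range (p * q), ext' f ((z + e) / (p * q : ℕ)) := by
    rw [← sum_sum_range p q (fun e => ext' f ((z + e) / (p * q : ℕ))), Finset.sum_comm]
    refine Finset.sum_congr rfl fun c _ => Finset.sum_congr rfl fun b _ => ?_
    congr 1
    push_cast
    field_simp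
    ring
  rw [h1, h3, h4]
  ring

theorem heckeOp_comm (p q : ℕ) (hp : p.Prime) (hq : q.Prime) (f : ℍ → ℂ)
    (hf : ∀ z, f ((1 : ℝ) +ᵥ z) = f z) :
    heckeOp p hp.ne_zero (heckeOp q hq.ne_zero f) = heckeOp q hq.ne_zero (heckeOp p hp.ne_zero f) := by
  by_cases hpq : p = q
  · subst hpq
    rfl
  · funext z
    rw [heckeOp_heckeOp p q hp hq hpq f hf, heckeOp_heckeOp q p hq hp (Ne.symm hpq) f hf,
      mul_comm q p, add_comm (∑ c ∈ Finset.range q, ext' f ((p * z + c) / q))]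

end Pool.Agent.N849.Hecke
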