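import Mathlib

/-!
# The K-Bessel function of complex order

`W ν y = 2 √y K_ν (2 π y)`: the differential equation, uniqueness of the bounded solution, the
Mellin transform, and exponential decay.
-/

set_option autoImplicit false

namespace Pool.Agent.N849.Bessel

open MeasureTheory Complex Set Filter Topology

/-- `2 √y K_ν(2 π y)` -/
noncomputable def W (ν : ℂ) (y : ℝ) : ℂ :=
  (Real.sqrt y : ℂ) * ∫ t : ℝ, Complex.exp (-(2 * Real.pi * y * Real.cosh t : ℝ) + ν * t)

/-! ### Integrability -/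

lemma sq_div_four_le_cosh (t : ℝ) : t ^ 2 / 4 ≤ Real.cosh t := by
  have h1 : 1 + |t| + |t| ^ 2 / 2 ≤ Real.exp |t| := Real.quadratic_le_exp_of_nonneg (abs_nonneg t)
  have h2 : Real.exp |t| ≤ Real.exp t + Real.exp (-t) := by
    rcases abs_cases t with ⟨h, _⟩ | ⟨h, _⟩ <;> rw [h]
    · linarith [Real.exp_pos (-t)]
    · linarith [Real.exp_pos t]
  have h3 : |t| ^ 2 = t ^ 2 := sq_abs t
  rw [Real.cosh_eq]
  nlinarith [abs_nonneg t]

lemma cosh_pow_mul_exp_le {c : ℝ} (hc : 0 < c) (k : ℕ) (r t : ℝ) :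
    Real.cosh t ^ k * Real.exp (-(c * Real.cosh t) + r * t) ≤
      (k.factorial * (2 / c) ^ k) * Real.exp (-(c / 8) * t ^ 2 + r * t) := by
  have h1 : (c / 2 * Real.cosh t) ^ k / k.factorial ≤ Real.exp (c / 2 * Real.cosh t) :=
    Real.pow_div_factorial_le_exp _ (by positivity) k
  have h2 : Real.cosh t ^ k ≤ (k.factorial * (2 / c) ^ k) * Real.exp (c / 2 * Real.cosh t) := by
    have h3 : Real.cosh t ^ k =
        (k.factorial * (2 / c) ^ k) * ((c / 2 * Real.cosh t) ^ k / k.factorial) := by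
      have : (k.factorial : ℝ) ≠ 0 := by positivity
      field_simp
      rw [← mul_pow]
      congr 1
      field_simp
    rw [h3]
    exact mul_le_mul_of_nonneg_left h1 (by positivity)
  have h4 : Real.exp (-(c * Real.cosh t) + r * t) =
      Real.exp (-(c / 2 * Real.cosh t)) * Real.exp (-(c / 2 * Real.cosh t) + r * t) := by
    rw [← Real.exp_add]; congr 1; ring
  have h5 : Real.exp (-(c / 2 * Real.cosh t) + r * t) ≤ Real.exp (-(c / 8) * t ^ 2 + r * t) := by
    apply Real.exp_le_exp.2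
    have := sq_div_four_le_cosh t
    nlinarith
  calc Real.cosh t ^ k * Real.exp (-(c * Real.cosh t) + r * t)
      ≤ ((k.factorial * (2 / c) ^ k) * Real.exp (c / 2 * Real.cosh t)) *
        (Real.exp (-(c / 2 * Real.cosh t)) * Real.exp (-(c / 8) * t ^ 2 + r * t)) := by
        rw [h4]
        gcongr
    _ = (k.factorial * (2 / c) ^ k) * Real.exp (-(c / 8) * t ^ 2 + r * t) := by
        rw [mul_assoc, ← mul_assoc (Real.exp (c / 2 * Real.cosh t)), ← Real.exp_add]
        simp

lemma integrable_cosh_pow_mul_exp {c : ℝ} (hc : 0 < c) (k : ℕ) (r : ℝ) :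
    Integrable (fun t : ℝ => Real.cosh t ^ k * Real.exp (-(c * Real.cosh t) + r * t)) := by
  have h1 : Integrable (fun t : ℝ => (k.factorial * (2 / c) ^ k) *
      Real.exp (-(c / 8) * t ^ 2 + r * t)) := by
    apply Integrable.const_mul
    have h2 := (integrable_cexp_quadratic' (b := ((-(c / 8) : ℝ) : ℂ))
      (by rw [ofReal_re]; linarith) (r : ℂ) 0).norm
    refine h2.congr (Eventually.of_forall fun t => ?_)
    simp only [Complex.norm_exp]
    congr 1
    simp [← ofReal_pow]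
  refine h1.mono' ?_ (Eventually.of_forall fun t => ?_)
  · exact (by fun_prop : Continuous fun t : ℝ =>
      Real.cosh t ^ k * Real.exp (-(c * Real.cosh t) + r * t)).aestronglyMeasurable
  · rw [Real.norm_of_nonneg (by positivity)]
    exact cosh_pow_mul_exp_le hc k r t

/-- the integrand with a power of `cosh` -/
noncomputable def G (ν : ℂ) (k : ℕ) (y t : ℝ) : ℂ :=
  (Real.cosh t : ℂ) ^ k * Complex.exp (-(2 * Real.pi * y * Real.cosh t : ℝ) + ν * t)

lemma norm_G (ν : ℂ) (k : ℕ) (y t : ℝ) :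
    ‖G ν k y t‖ = Real.cosh t ^ k * Real.exp (-(2 * Real.pi * y * Real.cosh t) + ν.re * t) := by
  rw [G, norm_mul, norm_pow, Complex.norm_real, Real.norm_of_nonneg (Real.cosh_pos t).le,
    Complex.norm_exp]
  congr 2
  simp

lemma continuous_G (ν : ℂ) (k : ℕ) : Continuous (fun p : ℝ × ℝ => G ν k p.1 p.2) := by
  unfold G
  fun_prop

lemma integrable_G (ν : ℂ) (k : ℕ) {y : ℝ} (hy : 0 < y) : Integrable (G ν k y) := by
  have h := integrable_cosh_pow_mul_exp (c := 2 * Real.pi * y) (by positivity) k ν.re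
  refine h.mono' ?_ (Eventually.of_forall fun t => ?_)
  · exact ((continuous_G ν k).comp (by fun_prop : Continuous fun t : ℝ => (y, t))).aestronglyMeasurable
  · rw [norm_G]

/-- `F k y = ∫ cosh^k t exp (-2 π y cosh t + ν t) dt` -/
noncomputable def F (ν : ℂ) (k : ℕ) (y : ℝ) : ℂ := ∫ t : ℝ, G ν k y t

lemma W_eq (ν : ℂ) (y : ℝ) : W ν y = (Real.sqrt y : ℂ) * F ν 0 y := by
  simp [W, F, G]

lemma hasDerivAt_F (ν : ℂ) (k : ℕ) {y : ℝ} (hy : 0 < y) :
    HasDerivAt (F ν k) (-(2 * Real.pi) * F ν (k + 1) y) y := by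
  have hb := integrable_cosh_pow_mul_exp (c := Real.pi * y) (by positivity) (k + 1) ν.re
  have key := hasDerivAt_integral_of_dominated_loc_of_deriv_le (μ := volume)
    (F := fun y t => G ν k y t) (F' := fun y t => -(2 * Real.pi) * G ν (k + 1) y t)
    (x₀ := y) (s := Ioi (y / 2))
    (bound := fun t => 2 * Real.pi * (Real.cosh t ^ (k + 1) *
      Real.exp (-(Real.pi * y * Real.cosh t) + ν.re * t)))
    (Ioi_mem_nhds (by linarith)) ?_ (integrable_G ν k hy) ?_ ?_ (hb.const_mul _) ?_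
  · have h := key.2
    rwa [integral_const_mul] at h
  · exact Eventually.of_forall fun x => ((continuous_G ν k).comp
      (by fun_prop : Continuous fun t : ℝ => (x, t))).aestronglyMeasurable
  · exact (continuous_const.mul ((continuous_G ν (k + 1)).comp
      (by fun_prop : Continuous fun t : ℝ => (y, t)))).aestronglyMeasurable
  · refine Eventually.of_forall fun t x hx => ?_
    rw [norm_mul, norm_G]
    have h1 : ‖-(2 * (Real.pi : ℂ))‖ = 2 * Real.pi := by
      rw [norm_neg, norm_mul, Complex.norm_real, Real.norm_of_nonneg Real.pi_pos.le]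
      simp
    rw [h1]
    have hx' : y / 2 < x := hx
    have h2 : Real.pi * y * Real.cosh t ≤ 2 * Real.pi * x * Real.cosh t := by
      have := Real.cosh_pos t
      have := Real.pi_pos
      have h3 : Real.pi * y ≤ 2 * Real.pi * x := by nlinarith
      nlinarith
    gcongr
  · refine Eventually.of_forall fun t x _ => ?_
    have h1 : HasDerivAt (fun x : ℝ => -((2 * Real.pi * x * Real.cosh t : ℝ) : ℂ) + ν * t)
        (-(2 * Real.pi * Real.cosh t)) x := by
      have h2 : HasDerivAt (fun x : ℝ => ((2 * Real.pi * x * Real.cosh t : ℝ) : ℂ))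
          ((2 * Real.pi * Real.cosh t : ℝ) : ℂ) x := by
        apply HasDerivAt.ofReal_comp
        have := ((hasDerivAt_id x).const_mul (2 * Real.pi)).mul_const (Real.cosh t)
        simpa using this
      have h3 := (h2.neg).add_const (ν * t)
      convert! h3 using 1
      push_cast
      ring
    have h4 := (h1.cexp).const_mul ((Real.cosh t : ℂ) ^ k)
    convert! h4 using 1
    simp only [G]
    push_cast
    ring


/-- The Bessel equation: `y² F'' + y F' = (4 π² y² + ν²) F`. -/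
lemma bessel (ν : ℂ) {y : ℝ} (hy : 0 < y) :
    4 * Real.pi ^ 2 * (y : ℂ) ^ 2 * F ν 2 y - 2 * Real.pi * y * F ν 1 y =
      (4 * Real.pi ^ 2 * (y : ℂ) ^ 2 + ν ^ 2) * F ν 0 y := by
  set f : ℝ → ℂ := fun t => (-(2 * Real.pi * y) * Real.sinh t - ν) * G ν 0 y t with hf
  set f' : ℝ → ℂ := fun t => 4 * Real.pi ^ 2 * (y : ℂ) ^ 2 * G ν 2 y t
    - 2 * Real.pi * y * G ν 1 y t - (4 * Real.pi ^ 2 * (y : ℂ) ^ 2 + ν ^ 2) * G ν 0 y t with hf'
  have hd : ∀ t, HasDerivAt f (f' t) t := by
    intro t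
    have h1 : HasDerivAt (fun t : ℝ => -((2 * Real.pi * y * Real.cosh t : ℝ) : ℂ) + ν * t)
        (-(2 * Real.pi * y * Real.sinh t) + ν) t := by
      have h2 : HasDerivAt (fun t : ℝ => ((2 * Real.pi * y * Real.cosh t : ℝ) : ℂ))
          ((2 * Real.pi * y * Real.sinh t : ℝ) : ℂ) t := by
        apply HasDerivAt.ofReal_comp
        exact (Real.hasDerivAt_cosh t).const_mul _
      have h3 : HasDerivAt (fun t : ℝ => ν * (t : ℂ)) ν t := by
        simpa using (hasDerivAt_id t).ofReal_comp.const_mul ν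
      have h4 := (h2.neg).add h3
      convert! h4 using 1
      push_cast
      ring
    have h5 : HasDerivAt (fun t : ℝ => -(2 * Real.pi * y) * (Real.sinh t : ℂ) - ν)
        (-(2 * Real.pi * y) * Real.cosh t) t := by
      have h6 : HasDerivAt (fun t : ℝ => ((Real.sinh t : ℝ) : ℂ)) ((Real.cosh t : ℝ) : ℂ) t :=
        HasDerivAt.ofReal_comp (Real.hasDerivAt_sinh t)
      exact (h6.const_mul _).sub_const ν
    have h7 : HasDerivAt (fun t : ℝ => G ν 0 y t)
        (G ν 0 y t * (-(2 * Real.pi * y * Real.sinh t) + ν)) t := by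
      have h8 := h1.cexp
      have h9 : (fun t : ℝ => G ν 0 y t) =
          fun t : ℝ => Complex.exp (-((2 * Real.pi * y * Real.cosh t : ℝ) : ℂ) + ν * t) := by
        funext t
        simp [G]
      rw [h9]
      convert! h8 using 1
      simp [G]
    have h10 := h5.mul h7
    convert! h10 using 1
    simp only [hf', G]
    have hs : ((Real.sinh t : ℝ) : ℂ) ^ 2 = ((Real.cosh t : ℝ) : ℂ) ^ 2 - 1 := by
      rw [← ofReal_pow, Real.sinh_sq]
      push_cast
      ring
    linear_combination (-(4 * Real.pi ^ 2 * (y : ℂ) ^ 2) *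
      Complex.exp (-((2 * Real.pi * y * Real.cosh t : ℝ) : ℂ) + ν * t)) * hs
  have hi0 := integrable_G ν 0 hy
  have hi1 := integrable_G ν 1 hy
  have hi2 := integrable_G ν 2 hy
  have hf'i : Integrable f' :=
    ((hi2.const_mul _).sub (hi1.const_mul _)).sub (hi0.const_mul _)
  have hfi : Integrable f := by
    have h1 : Integrable (fun t => (2 * Real.pi * y : ℝ) * ‖G ν 1 y t‖ + ‖ν‖ * ‖G ν 0 y t‖) :=
      (hi1.norm.const_mul _).add (hi0.norm.const_mul _)
    refine h1.mono' ?_ (Eventually.of_forall fun t => ?_)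
    · have : Continuous f := by
        simp only [hf, G]
        fun_prop
      exact this.aestronglyMeasurable
    · rw [norm_mul, norm_G, norm_G]
      have h2 : ‖-(2 * (Real.pi : ℂ) * y) * Real.sinh t - ν‖ ≤
          2 * Real.pi * y * Real.cosh t + ‖ν‖ := by
        refine (norm_sub_le _ _).trans ?_
        gcongr
        rw [norm_mul, norm_neg, norm_mul, norm_mul, Complex.norm_real, Complex.norm_real,
          Complex.norm_real, Real.norm_of_nonneg Real.pi_pos.le, Real.norm_of_nonneg hy.le]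
        have h3 : |Real.sinh t| ≤ Real.cosh t := by
          rw [Real.abs_sinh, ← Real.cosh_abs]
          exact (Real.sinh_lt_cosh _).le
        rw [Real.norm_eq_abs]
        have h4 : ‖(2 : ℂ)‖ = 2 := by simp
        rw [h4]
        gcongr
      calc _ ≤ (2 * Real.pi * y * Real.cosh t + ‖ν‖) *
            (Real.cosh t ^ 0 * Real.exp (-(2 * Real.pi * y * Real.cosh t) + ν.re * t)) := by
            gcongr
        _ = _ := by ring
  have h0 := integral_eq_zero_of_hasDerivAt_of_integrable hd hf'i hfi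
  have h1 : ∫ t, f' t = 4 * Real.pi ^ 2 * (y : ℂ) ^ 2 * F ν 2 y - 2 * Real.pi * y * F ν 1 y -
      (4 * Real.pi ^ 2 * (y : ℂ) ^ 2 + ν ^ 2) * F ν 0 y := by
    simp only [hf', F]
    have e1 : ∫ t, (4 * Real.pi ^ 2 * (y : ℂ) ^ 2 * G ν 2 y t - 2 * Real.pi * y * G ν 1 y t -
        (4 * Real.pi ^ 2 * (y : ℂ) ^ 2 + ν ^ 2) * G ν 0 y t) =
        (∫ t, (4 * Real.pi ^ 2 * (y : ℂ) ^ 2 * G ν 2 y t - 2 * Real.pi * y * G ν 1 y t)) -
        ∫ t, (4 * Real.pi ^ 2 * (y : ℂ) ^ 2 + ν ^ 2) * G ν 0 y t :=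
      integral_sub ((hi2.const_mul _).sub (hi1.const_mul _)) (hi0.const_mul _)
    have e2 : ∫ t, (4 * Real.pi ^ 2 * (y : ℂ) ^ 2 * G ν 2 y t - 2 * Real.pi * y * G ν 1 y t) =
        (∫ t, 4 * Real.pi ^ 2 * (y : ℂ) ^ 2 * G ν 2 y t) - ∫ t, 2 * Real.pi * y * G ν 1 y t :=
      integral_sub (hi2.const_mul _) (hi1.const_mul _)
    rw [e1, e2, integral_const_mul, integral_const_mul, integral_const_mul]
  rw [h1] at h0
  linear_combination h0

/-! ### The function `W` and its derivative -/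

/-- the derivative of `W` -/
noncomputable def W' (ν : ℂ) (y : ℝ) : ℂ :=
  (1 / (2 * Real.sqrt y) : ℝ) * F ν 0 y - (Real.sqrt y : ℂ) * (2 * Real.pi * F ν 1 y)

lemma hasDerivAt_W (ν : ℂ) {y : ℝ} (hy : 0 < y) : HasDerivAt (W ν) (W' ν y) y := by
  have h1 : HasDerivAt (fun y : ℝ => (Real.sqrt y : ℂ)) ((1 / (2 * Real.sqrt y) : ℝ) : ℂ) y :=
    HasDerivAt.ofReal_comp (Real.hasDerivAt_sqrt hy.ne')
  have h2 := h1.mul (hasDerivAt_F ν 0 hy)
  have h3 : W ν = fun y => (Real.sqrt y : ℂ) * F ν 0 y := by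
    funext y
    exact W_eq ν y
  rw [h3]
  convert! h2 using 1
  simp only [W']
  ring

lemma hasDerivAt_W' (ν : ℂ) {y : ℝ} (hy : 0 < y) :
    HasDerivAt (W' ν) ((4 * Real.pi ^ 2 - (1 / 4 - ν ^ 2) / (y : ℂ) ^ 2) * W ν y) y := by
  have hs : 0 < Real.sqrt y := Real.sqrt_pos.2 hy
  have h1 : HasDerivAt (fun y : ℝ => (Real.sqrt y : ℂ)) ((1 / (2 * Real.sqrt y) : ℝ) : ℂ) y :=
    HasDerivAt.ofReal_comp (Real.hasDerivAt_sqrt hy.ne')
  have h2 : HasDerivAt (fun y : ℝ => ((1 / (2 * Real.sqrt y) : ℝ) : ℂ))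
      ((-(2 * (1 / (2 * Real.sqrt y))) / (2 * Real.sqrt y) ^ 2 : ℝ) : ℂ) y := by
    apply HasDerivAt.ofReal_comp
    have h3 := ((Real.hasDerivAt_sqrt hy.ne').const_mul 2).inv (by positivity)
    have h3' : (fun y : ℝ => 1 / (2 * Real.sqrt y)) = (fun y : ℝ => 2 * Real.sqrt y)⁻¹ := by
      funext y
      simp [Pi.inv_apply]
    rw [h3']
    exact h3
  have h4 := (h2.mul (hasDerivAt_F ν 0 hy)).sub
    (h1.mul ((hasDerivAt_F ν 1 hy).const_mul (2 * (Real.pi : ℂ))))
  have h5 : W' ν = fun y : ℝ => ((1 / (2 * Real.sqrt y) : ℝ) : ℂ) * F ν 0 y -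
      (Real.sqrt y : ℂ) * (2 * Real.pi * F ν 1 y) := rfl
  rw [h5]
  convert! h4 using 1
  rw [W_eq]
  have hb := bessel ν hy
  have hy2 : (y : ℂ) = (Real.sqrt y : ℂ) ^ 2 := by
    rw [← ofReal_pow, Real.sq_sqrt hy.le]
  have hs0 : (Real.sqrt y : ℂ) ≠ 0 := by
    exact_mod_cast hs.ne'
  rw [hy2] at hb ⊢
  push_cast
  field_simp
  linear_combination (-16) * hb


/-! ### Decay -/

lemma norm_F_le (ν : ℂ) (k : ℕ) :
    ∃ C : ℝ, 0 ≤ C ∧ ∀ y : ℝ, 1 ≤ y → ‖F ν k y‖ ≤ C * Real.exp (-(2 * Real.pi * y)) := by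
  have hb := integrable_cosh_pow_mul_exp (c := Real.pi) (by positivity) k ν.re
  set I : ℝ := ∫ t, Real.cosh t ^ k * Real.exp (-(Real.pi * Real.cosh t) + ν.re * t) with hI
  have hI0 : 0 ≤ I := integral_nonneg fun t => by positivity
  refine ⟨Real.exp Real.pi * I, by positivity, fun y hy => ?_⟩
  have hy0 : 0 < y := by linarith
  calc ‖F ν k y‖ ≤ ∫ t, ‖G ν k y t‖ := norm_integral_le_integral_norm _
    _ ≤ ∫ t, Real.exp (-(2 * Real.pi * y) + Real.pi) *
          (Real.cosh t ^ k * Real.exp (-(Real.pi * Real.cosh t) + ν.re * t)) := by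
        apply integral_mono (integrable_G ν k hy0).norm (hb.const_mul _)
        intro t
        simp only [norm_G]
        have h1 : Real.exp (-(2 * Real.pi * y * Real.cosh t) + ν.re * t) ≤
            Real.exp (-(2 * Real.pi * y) + Real.pi) *
              Real.exp (-(Real.pi * Real.cosh t) + ν.re * t) := by
          rw [← Real.exp_add]
          apply Real.exp_le_exp.2
          have h2 := Real.one_le_cosh t
          have h3 := Real.pi_pos
          have h4 : 0 ≤ Real.pi * (2 * y - 1) * (Real.cosh t - 1) :=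
            mul_nonneg (mul_nonneg h3.le (by linarith)) (by linarith)
          nlinarith
        calc Real.cosh t ^ k * Real.exp (-(2 * Real.pi * y * Real.cosh t) + ν.re * t)
            ≤ Real.cosh t ^ k * (Real.exp (-(2 * Real.pi * y) + Real.pi) *
              Real.exp (-(Real.pi * Real.cosh t) + ν.re * t)) := by gcongr
          _ = _ := by ring
    _ = Real.exp (-(2 * Real.pi * y) + Real.pi) * I := by rw [integral_const_mul]
    _ = Real.exp Real.pi * I * Real.exp (-(2 * Real.pi * y)) := by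
        rw [Real.exp_add]; ring

/-- `W` decays exponentially -/
theorem norm_W_le (ν : ℂ) :
    ∃ C : ℝ, 0 ≤ C ∧ ∀ y : ℝ, 1 ≤ y → ‖W ν y‖ ≤ C * (y * Real.exp (-(2 * Real.pi * y))) := by
  obtain ⟨C, hC, h⟩ := norm_F_le ν 0
  refine ⟨C, hC, fun y hy => ?_⟩
  rw [W_eq, norm_mul, Complex.norm_real, Real.norm_of_nonneg (Real.sqrt_nonneg y)]
  have h1 : Real.sqrt y ≤ y := by
    rw [Real.sqrt_le_iff]
    constructor
    · linarith
    · nlinarith
  calc Real.sqrt y * ‖F ν 0 y‖ ≤ y * (C * Real.exp (-(2 * Real.pi * y))) := by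
        gcongr
        exact h y hy
    _ = _ := by ring

theorem norm_W'_le (ν : ℂ) :
    ∃ C : ℝ, 0 ≤ C ∧ ∀ y : ℝ, 1 ≤ y → ‖W' ν y‖ ≤ C * (y * Real.exp (-(2 * Real.pi * y))) := by
  obtain ⟨C, hC, h⟩ := norm_F_le ν 0
  obtain ⟨D, hD, h'⟩ := norm_F_le ν 1
  refine ⟨C + 2 * Real.pi * D, by positivity, fun y hy => ?_⟩
  have h1 : Real.sqrt y ≤ y := by
    rw [Real.sqrt_le_iff]
    constructor
    · linarith
    · nlinarith
  have h1' : 1 ≤ Real.sqrt y := by
    rw [Real.le_sqrt' one_pos]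
    simpa using hy
  have h2 : 1 / (2 * Real.sqrt y) ≤ y := by
    rw [div_le_iff₀ (by positivity)]
    nlinarith
  unfold W'
  refine (norm_sub_le _ _).trans ?_
  rw [norm_mul, norm_mul, norm_mul, norm_mul, Complex.norm_real, Complex.norm_real,
    Complex.norm_real, Real.norm_of_nonneg (Real.sqrt_nonneg y),
    Real.norm_of_nonneg (by positivity : (0:ℝ) ≤ 1 / (2 * Real.sqrt y)),
    Real.norm_of_nonneg Real.pi_pos.le]
  have h4 : ‖(2 : ℂ)‖ = 2 := by simp
  rw [h4]
  calc 1 / (2 * Real.sqrt y) * ‖F ν 0 y‖ + Real.sqrt y * (2 * Real.pi * ‖F ν 1 y‖)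
      ≤ y * (C * Real.exp (-(2 * Real.pi * y))) +
        y * (2 * Real.pi * (D * Real.exp (-(2 * Real.pi * y)))) := by
        gcongr
        · exact h y hy
        · exact h' y hy
    _ = _ := by ring

/-! ### Uniqueness -/

/-- If two functions satisfy the same second order linear equation on `(0,∞)` then their
Wronskian is constant. -/
lemma wronskian_const {q a a' b b' : ℝ → ℂ}
    (ha : ∀ y, 0 < y → HasDerivAt a (a' y) y) (ha' : ∀ y, 0 < y → HasDerivAt a' (q y * a y) y)
    (hb : ∀ y, 0 < y → HasDerivAt b (b' y) y) (hb' : ∀ y, 0 < y → HasDerivAt b' (q y * b y) y)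
    {x y : ℝ} (hx : 0 < x) (hy : 0 < y) :
    a x * b' x - a' x * b x = a y * b' y - a' y * b y := by
  have hd : ∀ z ∈ Ioi (0 : ℝ), HasDerivWithinAt (fun z => a z * b' z - a' z * b z) 0 (Ioi 0) z := by
    intro z hz
    have h := ((ha z hz).mul (hb' z hz)).sub ((ha' z hz).mul (hb z hz))
    have h2 : (a' z * b' z + a z * (q z * b z)) - (q z * a z * b z + a' z * b' z) = 0 := by ring
    rw [h2] at h
    exact h.hasDerivWithinAt
  have := (convex_Ioi (0 : ℝ)).norm_image_sub_le_of_norm_hasDerivWithin_le (C := 0) hd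
    (fun z _ => by simp) (mem_Ioi.2 hy) (mem_Ioi.2 hx)
  rw [zero_mul, norm_le_zero_iff, sub_eq_zero] at this
  exact this

/-- A solution of a second order linear equation on `(0,∞)` with zero initial values vanishes. -/
lemma ode_zero {q a a' : ℝ → ℂ} (hq : ContinuousOn q (Ioi 0))
    (ha : ∀ y, 0 < y → HasDerivAt a (a' y) y) (ha' : ∀ y, 0 < y → HasDerivAt a' (q y * a y) y)
    {x : ℝ} (hx : 0 < x) (h0 : a x = 0) (h0' : a' x = 0) {y : ℝ} (hy : 0 < y) : a y = 0 := by
  set l : ℝ := min x y / 2 with hl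
  set r : ℝ := max x y + 1 with hr
  have hl0 : 0 < l := by positivity
  have hsub : Icc l r ⊆ Ioi (0 : ℝ) := fun z hz => lt_of_lt_of_le hl0 hz.1
  obtain ⟨M, hM⟩ := (isCompact_Icc.image_of_continuousOn (hq.mono hsub)).isBounded.exists_norm_le
  have hM' : ∀ z ∈ Ioo l r, ‖q z‖ ≤ M := fun z hz =>
    hM _ (mem_image_of_mem q (Ioo_subset_Icc_self hz))
  set v : ℝ → ℂ × ℂ → ℂ × ℂ := fun t p => (p.2, q t * p.1) with hv
  have hK : ∀ t ∈ Ioo l r, LipschitzOnWith (Real.toNNReal (max 1 M)) (v t) univ := by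
    intro t ht
    apply LipschitzOnWith.of_dist_le_mul
    intro p _ p' _
    rw [Real.coe_toNNReal _ (by positivity)]
    simp only [hv, Prod.dist_eq]
    apply max_le
    · calc dist p.2 p'.2 ≤ 1 * max (dist p.1 p'.1) (dist p.2 p'.2) := by
            rw [one_mul]; exact le_max_right _ _
        _ ≤ _ := by gcongr; exact le_max_left _ _
    · rw [dist_eq_norm, ← mul_sub, norm_mul, ← dist_eq_norm]
      have h1 := hM' t ht
      gcongr
      · exact h1.trans (le_max_right _ _)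
      · exact le_max_left _ _
  have hx' : x ∈ Ioo l r := by
    constructor
    · have := min_le_left x y
      have : 0 < min x y := lt_min hx hy
      linarith
    · have := le_max_left x y
      linarith
  have hy' : y ∈ Ioo l r := by
    constructor
    · have := min_le_right x y
      have : 0 < min x y := lt_min hx hy
      linarith
    · have := le_max_right x y
      linarith
  have key := ODE_solution_unique_of_mem_Ioo (v := v) (s := fun _ => univ)
    (f := fun t => (a t, a' t)) (g := fun _ => (0, 0)) hK hx'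
    (fun t ht => ⟨by
      have ht0 : 0 < t := hsub (Ioo_subset_Icc_self ht)
      exact (ha t ht0).prodMk (ha' t ht0), mem_univ _⟩)
    (fun t _ => ⟨by
      have : v t (0, 0) = 0 := by simp [hv]
      rw [this]
      exact hasDerivAt_const t _, mem_univ _⟩)
    (by simp [h0, h0'])
  have := key hy'
  exact congrArg Prod.fst this


/-! ### The Mellin transform -/

/-- `log (2 cosh t)` -/
noncomputable def L (t : ℝ) : ℝ := Real.log (2 * Real.cosh t)

/-- the change of variables `t ↦ e^t / (2 cosh t)` from the line to `(0,1)` -/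
noncomputable def u (t : ℝ) : ℝ := Real.exp t / (2 * Real.cosh t)

lemma exp_L (t : ℝ) : Real.exp (L t) = 2 * Real.cosh t :=
  Real.exp_log (by positivity)

lemma u_eq (t : ℝ) : u t = Real.exp (t - L t) := by
  rw [Real.exp_sub, exp_L, u]

lemma one_sub_u (t : ℝ) : 1 - u t = Real.exp (-t - L t) := by
  rw [Real.exp_sub, exp_L, u]
  have : 2 * Real.cosh t ≠ 0 := by positivity
  rw [eq_div_iff this, sub_mul, div_mul_cancel₀ _ this, Real.cosh_eq]
  ring

lemma hasDerivAt_u (t : ℝ) : HasDerivAt u (2 * Real.exp (-(2 * L t))) t := by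
  have h := (Real.hasDerivAt_exp t).div ((Real.hasDerivAt_cosh t).const_mul 2) (by positivity)
  have h2 : 2 * Real.exp (-(2 * L t)) = (Real.exp t * (2 * Real.cosh t) -
      Real.exp t * (2 * Real.sinh t)) / (2 * Real.cosh t) ^ 2 := by
    rw [eq_div_iff (by positivity), ← exp_L, ← Real.exp_nat_mul, mul_assoc, ← Real.exp_add, exp_L]
    rw [Real.cosh_eq, Real.sinh_eq]
    have h3 : Real.exp t * Real.exp (-t) = 1 := by rw [← Real.exp_add]; simp
    have h4 : Real.exp (-(2 * L t) + ((2 : ℕ) : ℝ) * L t) = 1 := by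
      push_cast
      rw [neg_add_cancel, Real.exp_zero]
    rw [h4]
    linear_combination (-2) * h3
  rw [h2]
  exact h

lemma injOn_u : InjOn u univ := by
  have hm : StrictMono u := strictMono_of_deriv_pos fun t => by
    rw [(hasDerivAt_u t).deriv]
    positivity
  exact hm.injective.injOn

lemma image_u : u '' univ = Ioo 0 1 := by
  ext x
  constructor
  · rintro ⟨t, -, rfl⟩
    constructor
    · rw [u_eq]; positivity
    · have := one_sub_u t
      have h2 : 0 < Real.exp (-t - L t) := Real.exp_pos _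
      linarith
  · rintro ⟨h0, h1⟩
    refine ⟨Real.log (x / (1 - x)) / 2, mem_univ _, ?_⟩
    set t := Real.log (x / (1 - x)) / 2 with ht
    have h3 : 0 < x / (1 - x) := div_pos h0 (by linarith)
    have h4 : Real.exp t * Real.exp t = x / (1 - x) := by
      rw [← Real.exp_add, ht, add_halves, Real.exp_log h3]
    have h5 : Real.exp t * Real.exp (-t) = 1 := by rw [← Real.exp_add]; simp
    have h6 : 0 < Real.exp t := Real.exp_pos t
    have h8 : (1 - x) ≠ 0 := by linarith
    have h9 : Real.exp t * Real.exp t * (1 - x) = x := by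
      rw [h4]; field_simp
    rw [u, div_eq_iff (by positivity), Real.cosh_eq]
    have h7 : Real.exp t * (Real.exp t - x * (2 * ((Real.exp t + Real.exp (-t)) / 2))) = 0 := by
      linear_combination h9 - x * h5
    rcases mul_eq_zero.1 h7 with h | h
    · exact absurd h h6.ne'
    · linarith

lemma beta_aux (a b : ℂ) (t : ℝ) :
    |2 * Real.exp (-(2 * L t))| • (((u t : ℝ) : ℂ) ^ (a - 1) * (1 - ((u t : ℝ) : ℂ)) ^ (b - 1)) =
      2 * Complex.exp ((a - b) * t - (a + b) * L t) := by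
  have h1 : (1 - ((u t : ℝ) : ℂ)) = ((1 - u t : ℝ) : ℂ) := by push_cast; ring
  have hp : ∀ (r : ℝ) (w : ℂ), ((Real.exp r : ℝ) : ℂ) ^ w = Complex.exp (r * w) := by
    intro r w
    rw [Complex.cpow_def_of_ne_zero (by exact_mod_cast (Real.exp_pos r).ne'),
      ← Complex.ofReal_log (Real.exp_pos r).le, Real.log_exp]
  rw [h1, one_sub_u, u_eq, hp, hp, abs_of_pos (by positivity), Complex.real_smul, ← Complex.exp_add,
    ofReal_mul, ofReal_exp, ofReal_ofNat, mul_assoc, ← Complex.exp_add]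
  congr 2
  push_cast
  ring

/-- the integral `∫ exp (ν t) (2 cosh t)^(-s) dt` -/
lemma beta_line {a b : ℂ} (ha : 0 < a.re) (hb : 0 < b.re) :
    Integrable (fun t : ℝ => Complex.exp ((a - b) * t - (a + b) * L t)) ∧
    ∫ t : ℝ, Complex.exp ((a - b) * t - (a + b) * L t) = Complex.betaIntegral a b / 2 := by
  set g : ℝ → ℂ := fun x => (x : ℂ) ^ (a - 1) * (1 - (x : ℂ)) ^ (b - 1) with hg
  have hder : ∀ x ∈ (univ : Set ℝ), HasDerivWithinAt u (2 * Real.exp (-(2 * L x))) univ x :=
    fun x _ => (hasDerivAt_u x).hasDerivWithinAt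
  have h1 := integrableOn_image_iff_integrableOn_abs_deriv_smul MeasurableSet.univ hder injOn_u g
  have h2 := integral_image_eq_integral_abs_deriv_smul MeasurableSet.univ hder injOn_u g
  have h3 : IntervalIntegrable g volume 0 1 := Complex.betaIntegral_convergent ha hb
  have h4 : IntegrableOn g (Ioo 0 1) := by
    rw [intervalIntegrable_iff_integrableOn_Ioo_of_le zero_le_one] at h3
    exact h3
  rw [image_u] at h1 h2
  have h5 := h1.1 h4
  simp only [hg, beta_aux, Measure.restrict_univ, integrableOn_univ] at h5 h2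
  have h6 : ∫ x in Ioo (0:ℝ) 1, (x : ℂ) ^ (a - 1) * (1 - (x : ℂ)) ^ (b - 1) =
      Complex.betaIntegral a b := by
    rw [Complex.betaIntegral, intervalIntegral.integral_of_le zero_le_one,
      integral_Ioc_eq_integral_Ioo]
  constructor
  · have := h5.const_mul (1 / 2 : ℂ)
    refine this.congr (Eventually.of_forall fun t => ?_)
    simp only
    ring
  · rw [h6, integral_const_mul] at h2
    rw [h2]
    ring


/-- the two variable integrand of the Mellin transform -/
noncomputable def H (ν s : ℂ) (y t : ℝ) : ℂ := (y : ℂ) ^ (s - 1) * G ν 0 y t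

lemma measurable_H (ν s : ℂ) : Measurable (Function.uncurry (H ν s)) := by
  unfold H Function.uncurry
  have h1 : Measurable (fun p : ℝ × ℝ => G ν 0 p.1 p.2) := (continuous_G ν 0).measurable
  have h2 : Measurable (fun p : ℝ × ℝ => (p.1 : ℂ) ^ (s - 1)) :=
    (Complex.measurable_ofReal.comp measurable_fst).pow_const _
  exact h2.mul h1

lemma H_eq (ν s : ℂ) (y t : ℝ) : H ν s y t =
    Complex.exp (ν * t) * ((y : ℂ) ^ (s - 1) * Complex.exp (-(((2 * Real.pi * Real.cosh t : ℝ) : ℂ) * y))) := by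
  unfold H G
  rw [pow_zero, one_mul, Complex.exp_add]
  have : (-((2 * Real.pi * y * Real.cosh t : ℝ) : ℂ)) =
      -(((2 * Real.pi * Real.cosh t : ℝ) : ℂ) * y) := by
    push_cast; ring
  rw [this]
  ring

lemma norm_H (ν s : ℂ) {y : ℝ} (hy : 0 < y) (t : ℝ) : ‖H ν s y t‖ =
    Real.exp (ν.re * t) * (y ^ (s.re - 1) * Real.exp (-((2 * Real.pi * Real.cosh t) * y))) := by
  rw [H_eq, norm_mul, norm_mul, Complex.norm_cpow_eq_rpow_re_of_pos hy, Complex.norm_exp,
    Complex.norm_exp]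
  congr 2
  · simp
  · congr 1
    simp [Complex.mul_re]

lemma pow_aux (s : ℂ) (t : ℝ) : (1 / ((2 * Real.pi * Real.cosh t : ℝ) : ℂ)) ^ s =
    (Real.pi : ℂ) ^ (-s) * Complex.exp (-(s * L t)) := by
  have h1 : (1 / ((2 * Real.pi * Real.cosh t : ℝ) : ℂ)) =
      ((Real.pi⁻¹ * Real.exp (- L t) : ℝ) : ℂ) := by
    rw [Real.exp_neg, exp_L]
    push_cast
    field_simp
  have hp : Real.pi⁻¹ * Real.exp (- L t) = Real.exp (-Real.log Real.pi - L t) := by
    rw [sub_eq_add_neg, Real.exp_add, Real.exp_neg (Real.log Real.pi), Real.exp_log Real.pi_pos]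
  rw [h1, hp, Complex.cpow_def_of_ne_zero (by exact_mod_cast (Real.exp_pos _).ne'),
    ← Complex.ofReal_log (Real.exp_pos _).le, Real.log_exp,
    Complex.cpow_def_of_ne_zero (by exact_mod_cast Real.pi_ne_zero),
    ← Complex.ofReal_log Real.pi_pos.le, ← Complex.exp_add]
  congr 1
  push_cast
  ring

lemma integral_H (ν s : ℂ) (hs : 0 < s.re) (t : ℝ) : ∫ y in Ioi (0 : ℝ), H ν s y t =
    (Real.pi : ℂ) ^ (-s) * Complex.Gamma s * Complex.exp (ν * t - s * L t) := by
  simp_rw [H_eq]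
  rw [integral_const_mul, Complex.integral_cpow_mul_exp_neg_mul_Ioi hs (by positivity), pow_aux,
    sub_eq_add_neg, Complex.exp_add]
  ring

lemma integrableOn_H (ν s : ℂ) (hs : 0 < s.re) (t : ℝ) :
    IntegrableOn (fun y => H ν s y t) (Ioi (0 : ℝ)) := by
  have h1 := integrableOn_rpow_mul_exp_neg_mul_rpow (p := 1) (s := s.re - 1)
    (b := 2 * Real.pi * Real.cosh t) (by linarith) one_pos (by positivity)
  have h2 : IntegrableOn (fun y : ℝ => Real.exp (ν.re * t) *
      (y ^ (s.re - 1) * Real.exp (-((2 * Real.pi * Real.cosh t) * y)))) (Ioi (0 : ℝ)) := by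
    apply Integrable.const_mul
    refine h1.congr (Eventually.of_forall fun y => ?_)
    simp only [Real.rpow_one]
    congr 2
    ring
  refine h2.mono' ?_ ?_
  · have h3 : Measurable (fun y => H ν s y t) :=
      (measurable_H ν s).comp (measurable_id.prodMk measurable_const)
    exact h3.aestronglyMeasurable
  · filter_upwards [self_mem_ae_restrict measurableSet_Ioi] with y hy
    rw [norm_H ν s hy]

lemma integral_norm_H (ν s : ℂ) (hs : 0 < s.re) (t : ℝ) :
    ∫ y in Ioi (0 : ℝ), ‖H ν s y t‖ =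
      Real.Gamma s.re * Real.pi ^ (-s.re) *
        ‖Complex.exp ((((s.re + ν.re) / 2 : ℝ) - ((s.re - ν.re) / 2 : ℝ) : ℂ) * t -
          (((s.re + ν.re) / 2 : ℝ) + ((s.re - ν.re) / 2 : ℝ) : ℂ) * L t)‖ := by
  have h1 : ∫ y in Ioi (0 : ℝ), ‖H ν s y t‖ = ∫ y in Ioi (0 : ℝ), Real.exp (ν.re * t) *
      (y ^ (s.re - 1) * Real.exp (-((2 * Real.pi * Real.cosh t) * y))) :=
    setIntegral_congr_fun measurableSet_Ioi fun y hy => norm_H ν s hy t
  rw [h1, integral_const_mul, Real.integral_rpow_mul_exp_neg_mul_Ioi hs (by positivity),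
    Complex.norm_exp]
  have h2 : (1 / (2 * Real.pi * Real.cosh t)) = Real.exp (-Real.log Real.pi - L t) := by
    rw [sub_eq_add_neg, Real.exp_add, Real.exp_neg, Real.exp_neg, Real.exp_log Real.pi_pos, exp_L]
    field_simp
  have h3 : Real.pi ^ (-s.re) = Real.exp (-Real.log Real.pi * s.re) := by
    rw [Real.rpow_def_of_pos Real.pi_pos]
    congr 1
    ring
  rw [h2, ← Real.exp_mul, h3]
  have h4 : ((((s.re + ν.re) / 2 : ℝ) - ((s.re - ν.re) / 2 : ℝ) : ℂ) * t -
          (((s.re + ν.re) / 2 : ℝ) + ((s.re - ν.re) / 2 : ℝ) : ℂ) * L t) =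
      ((ν.re * t - s.re * L t : ℝ) : ℂ) := by
    push_cast
    ring
  rw [h4, ofReal_re]
  rw [mul_comm (Real.Gamma s.re), mul_right_comm, ← Real.exp_add, ← mul_assoc, ← Real.exp_add]
  congr 2
  ring

lemma integrable_H (ν s : ℂ) (hs : |ν.re| < s.re) :
    Integrable (Function.uncurry (H ν s)) ((volume.restrict (Ioi (0 : ℝ))).prod volume) := by
  have hs0 : 0 < s.re := (abs_nonneg _).trans_lt hs
  have h1 := abs_lt.1 hs
  rw [integrable_prod_iff' (measurable_H ν s).aestronglyMeasurable]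
  constructor
  · exact Eventually.of_forall fun t => integrableOn_H ν s hs0 t
  · have h2 := (beta_line (a := (((s.re + ν.re) / 2 : ℝ) : ℂ)) (b := (((s.re - ν.re) / 2 : ℝ) : ℂ))
      (by rw [ofReal_re]; linarith) (by rw [ofReal_re]; linarith)).1.norm.const_mul
        (Real.Gamma s.re * Real.pi ^ (-s.re))
    refine h2.congr (Eventually.of_forall fun t => ?_)
    exact (integral_norm_H ν s hs0 t).symm

lemma W_mul_eq (ν s : ℂ) {y : ℝ} (hy : 0 < y) :
    W ν y * (y : ℂ) ^ (s - 1 / 2 - 1) = ∫ t, H ν s y t := by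
  have h1 : ∫ t, H ν s y t = (y : ℂ) ^ (s - 1) * F ν 0 y := by
    unfold H F
    rw [integral_const_mul]
  have h2 : (Real.sqrt y : ℂ) = (y : ℂ) ^ (1 / 2 : ℂ) := by
    rw [Real.sqrt_eq_rpow, Complex.ofReal_cpow hy.le]
    norm_num
  have h3 : (y : ℂ) ≠ 0 := by exact_mod_cast hy.ne'
  rw [h1, W_eq, h2, mul_right_comm, ← Complex.cpow_add _ _ h3]
  congr 2
  ring

/-- The Mellin transform of `W`. -/
theorem W_mellin (ν s : ℂ) (hs : |ν.re| < s.re) :
    IntegrableOn (fun y : ℝ => W ν y * (y : ℂ) ^ (s - 1 / 2 - 1)) (Ioi 0) ∧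
    ∫ y in Ioi (0 : ℝ), W ν y * (y : ℂ) ^ (s - 1 / 2 - 1) =
      (Real.pi : ℂ) ^ (-s) * Complex.Gamma ((s + ν) / 2) * Complex.Gamma ((s - ν) / 2) / 2 := by
  have hs0 : 0 < s.re := (abs_nonneg _).trans_lt hs
  have h1 := abs_lt.1 hs
  have hI := integrable_H ν s hs
  constructor
  · refine (hI.integral_prod_left).congr ?_
    filter_upwards [self_mem_ae_restrict measurableSet_Ioi] with y hy
    exact (W_mul_eq ν s hy).symm
  · have h2 : ∫ y in Ioi (0 : ℝ), W ν y * (y : ℂ) ^ (s - 1 / 2 - 1) =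
        ∫ y in Ioi (0 : ℝ), ∫ t, H ν s y t :=
      setIntegral_congr_fun measurableSet_Ioi fun y hy => W_mul_eq ν s hy
    rw [h2, integral_integral_swap hI]
    simp_rw [integral_H ν s hs0]
    rw [integral_const_mul]
    have ha : 0 < ((s + ν) / 2).re := by
      rw [Complex.div_ofNat_re, add_re]; linarith
    have hb : 0 < ((s - ν) / 2).re := by
      rw [Complex.div_ofNat_re, sub_re]; linarith
    have h3 := (beta_line ha hb).2
    have h4 : ∀ t : ℝ, ((s + ν) / 2 - (s - ν) / 2) * (t : ℂ) - ((s + ν) / 2 + (s - ν) / 2) * L t =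
        ν * t - s * L t := by
      intro t; ring
    simp_rw [h4] at h3
    rw [h3]
    have h5 := Complex.Gamma_mul_Gamma_eq_betaIntegral ha hb
    have h6 : (s + ν) / 2 + (s - ν) / 2 = s := by ring
    rw [h6] at h5
    rw [mul_assoc ((Real.pi : ℂ) ^ (-s)) (Complex.Gamma ((s + ν) / 2)), h5]
    ring

/-- `W` is not identically zero. -/
lemma exists_W_ne_zero (ν : ℂ) : ∃ y : ℝ, 0 < y ∧ W ν y ≠ 0 := by
  by_contra hcon
  push Not at hcon
  set s : ℂ := ((|ν.re| + 1 : ℝ) : ℂ) with hs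
  have hsre : s.re = |ν.re| + 1 := by rw [hs, ofReal_re]
  have hlt : |ν.re| < s.re := by rw [hsre]; linarith
  have h1 := (W_mellin ν s hlt).2
  have h2 : ∫ y in Ioi (0 : ℝ), W ν y * (y : ℂ) ^ (s - 1 / 2 - 1) = 0 := by
    have : ∫ y in Ioi (0 : ℝ), W ν y * (y : ℂ) ^ (s - 1 / 2 - 1) = ∫ y in Ioi (0 : ℝ), (0 : ℂ) :=
      setIntegral_congr_fun measurableSet_Ioi fun y hy => by rw [hcon y hy, zero_mul]
    rw [this, integral_zero]
  rw [h2] at h1
  have h3 := abs_lt.1 hlt
  have ha : 0 < ((s + ν) / 2).re := by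
    rw [Complex.div_ofNat_re, add_re]; linarith
  have hb : 0 < ((s - ν) / 2).re := by
    rw [Complex.div_ofNat_re, sub_re]; linarith
  have h4 : (Real.pi : ℂ) ^ (-s) ≠ 0 := by
    rw [Complex.cpow_ne_zero_iff]
    left
    exact_mod_cast Real.pi_ne_zero
  have h5 := Complex.Gamma_ne_zero_of_re_pos ha
  have h6 := Complex.Gamma_ne_zero_of_re_pos hb
  exact div_ne_zero (mul_ne_zero (mul_ne_zero h4 h5) h6) two_ne_zero h1.symm

/-- Uniqueness of the bounded solution of the Bessel equation on `(0,∞)`. -/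
theorem W_unique (ν : ℂ) (a a' : ℝ → ℂ) (h1 : ∀ y : ℝ, 0 < y → HasDerivAt a (a' y) y)
    (h2 : ∀ y : ℝ, 0 < y → HasDerivAt a' ((4 * Real.pi ^ 2 - (1 / 4 - ν ^ 2) / (y : ℂ) ^ 2) * a y) y)
    (hb : ∃ M : ℝ, ∀ y, 0 < y → ‖a y‖ ≤ M) : ∃ c : ℂ, ∀ y, 0 < y → a y = c * W ν y := by
  obtain ⟨M, hM⟩ := hb
  have hM0 : 0 ≤ M := (norm_nonneg _).trans (hM 1 one_pos)
  set q : ℝ → ℂ := fun y => 4 * Real.pi ^ 2 - (1 / 4 - ν ^ 2) / (y : ℂ) ^ 2 with hq
  have hqc : ContinuousOn q (Ioi 0) := by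
    apply ContinuousOn.sub continuousOn_const
    apply ContinuousOn.div continuousOn_const (by fun_prop)
    intro y hy
    have : (y : ℂ) ≠ 0 := by exact_mod_cast (ne_of_gt hy)
    positivity
  -- bound of the derivative
  set Q : ℝ := 4 * Real.pi ^ 2 + ‖(1 / 4 - ν ^ 2 : ℂ)‖ with hQ
  have hQ0 : 0 ≤ Q := by positivity
  have hqb : ∀ y : ℝ, 1 ≤ y → ‖q y‖ ≤ Q := by
    intro y hy
    refine (norm_sub_le _ _).trans ?_
    have e1 : ‖4 * (Real.pi : ℂ) ^ 2‖ = 4 * Real.pi ^ 2 := by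
      rw [norm_mul, norm_pow, Complex.norm_real, Real.norm_of_nonneg Real.pi_pos.le]
      simp
    have e2 : ‖(1 / 4 - ν ^ 2) / (y : ℂ) ^ 2‖ ≤ ‖(1 / 4 - ν ^ 2 : ℂ)‖ := by
      rw [norm_div, norm_pow, Complex.norm_real, Real.norm_of_nonneg (by linarith)]
      apply div_le_self (norm_nonneg _)
      nlinarith
    rw [e1]
    linarith
  have ha' : ∀ y : ℝ, 1 ≤ y → ‖a' y‖ ≤ ‖a' 1‖ + Q * M * y := by
    intro y hy
    have hd : ∀ z ∈ Ici (1 : ℝ), HasDerivWithinAt a' (q z * a z) (Ici 1) z := fun z hz =>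
      (h2 z (lt_of_lt_of_le one_pos hz)).hasDerivWithinAt
    have := (convex_Ici (1 : ℝ)).norm_image_sub_le_of_norm_hasDerivWithin_le (C := Q * M) hd
      (fun z hz => by
        rw [norm_mul]
        exact mul_le_mul (hqb z hz) (hM z (lt_of_lt_of_le one_pos hz)) (norm_nonneg _) hQ0)
      (self_mem_Ici) (mem_Ici.2 hy)
    have h3 : ‖a' y‖ ≤ ‖a' y - a' 1‖ + ‖a' 1‖ := by
      have := norm_add_le (a' y - a' 1) (a' 1)
      simpa using this
    have h4 : ‖y - 1‖ ≤ y := by
      rw [Real.norm_of_nonneg (by linarith)]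
      linarith
    have h5 : Q * M * ‖y - 1‖ ≤ Q * M * y := by gcongr
    linarith
  obtain ⟨C, hC, hCW⟩ := norm_W_le ν
  obtain ⟨D, hD, hDW⟩ := norm_W'_le ν
  -- the Wronskian vanishes
  have hwr : ∀ x : ℝ, 0 < x → a x * W' ν x - a' x * W ν x = 0 := by
    intro x hx
    have hconst : ∀ y : ℝ, 0 < y → a x * W' ν x - a' x * W ν x = a y * W' ν y - a' y * W ν y :=
      fun y hy => wronskian_const (q := q) h1 h2 (fun y hy => hasDerivAt_W ν hy)
        (fun y hy => hasDerivAt_W' ν hy) hx hy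
    have hbd : ∀ᶠ y : ℝ in atTop, ‖a x * W' ν x - a' x * W ν x‖ ≤
        M * (D * (y * Real.exp (-(2 * Real.pi * y)))) +
          (‖a' 1‖ + Q * M * y) * (C * (y * Real.exp (-(2 * Real.pi * y)))) := by
      filter_upwards [eventually_ge_atTop 1] with y hy
      have hy0 : 0 < y := lt_of_lt_of_le one_pos hy
      rw [hconst y hy0]
      refine (norm_sub_le _ _).trans ?_
      rw [norm_mul, norm_mul]
      have i1 := hM y hy0
      have i2 := hDW y hy
      have i3 := ha' y hy
      have i4 := hCW y hy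
      gcongr
    have hlim : Tendsto (fun y : ℝ => M * (D * (y * Real.exp (-(2 * Real.pi * y)))) +
          (‖a' 1‖ + Q * M * y) * (C * (y * Real.exp (-(2 * Real.pi * y))))) atTop (𝓝 0) := by
      have t1 : Tendsto (fun y : ℝ => y ^ (1 : ℝ) * Real.exp (-(2 * Real.pi) * y)) atTop (𝓝 0) :=
        tendsto_rpow_mul_exp_neg_mul_atTop_nhds_zero 1 _ (by positivity)
      have t2 : Tendsto (fun y : ℝ => y ^ (2 : ℝ) * Real.exp (-(2 * Real.pi) * y)) atTop (𝓝 0) :=
        tendsto_rpow_mul_exp_neg_mul_atTop_nhds_zero 2 _ (by positivity)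
      have t3 := (t1.const_mul (M * D + ‖a' 1‖ * C)).add (t2.const_mul (Q * M * C))
      simp only [mul_zero, add_zero] at t3
      refine t3.congr fun y => ?_
      rw [Real.rpow_one, Real.rpow_two, neg_mul]
      ring
    have := ge_of_tendsto hlim hbd
    rwa [norm_le_zero_iff] at this
  obtain ⟨y₁, hy₁, hW₁⟩ := exists_W_ne_zero ν
  refine ⟨a y₁ / W ν y₁, fun y hy => ?_⟩
  set c : ℂ := a y₁ / W ν y₁ with hc
  have key := ode_zero (q := q) (a := fun y => a y - c * W ν y) (a' := fun y => a' y - c * W' ν y)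
    hqc (fun y hy => (h1 y hy).sub ((hasDerivAt_W ν hy).const_mul c))
    (fun y hy => by
      have := (h2 y hy).sub ((hasDerivAt_W' ν hy).const_mul c)
      convert! this using 1
      simp only [hq]
      ring) hy₁
    (by rw [hc, div_mul_cancel₀ _ hW₁, sub_self])
    (by
      have := hwr y₁ hy₁
      rw [hc, div_mul_eq_mul_div, sub_eq_zero, eq_div_iff hW₁]
      linear_combination -this) hy
  exact sub_eq_zero.1 key

end Pool.Agent.N849.Bessel
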