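import Pool.Agent.N979.P1.Stm
import Pool.Agent.N526.CP.SPH
import Pool.Agent.N526.CP.MON
import Pool.Agent.N526.CP.RAD
import Pool.Agent.N526.CP.LIP

/-!
# P1/LIPP: Lipschitz properties of the maps to the plane (helper849)
-/

set_option autoImplicit false

open MeasureTheory Metric Set Filter Topology InnerProductGeometry Matrix

namespace Pool.Agent.N849.P1LIPP

open Pool.Agent.H241R3.FV Pool.Agent.N526.CP Pool.Agent.N979.P1
open Pool.Agent.N526.CP.LIP (asin_lip int_lip cont_g)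

theorem nrm2 (u : E 2) : ‖u‖ ≤ |u 0| + |u 1| := by
  rw [EuclideanSpace.norm_eq, Fin.sum_univ_two]
  rw [Real.sqrt_le_left (by positivity)]
  rw [Real.norm_eq_abs, Real.norm_eq_abs]
  nlinarith [abs_nonneg (u 0), abs_nonneg (u 1)]

theorem vec_sub (a b a' b' : ℝ) : ‖(!₂[a, b] : E 2) - !₂[a', b']‖ ≤ |a - a'| + |b - b'| := by
  have h := nrm2 ((!₂[a, b] : E 2) - !₂[a', b'])
  simpa using h

theorem norm_Jr (v : E 2) : ‖Jr v‖ = ‖v‖ := by
  unfold Jr
  rw [EuclideanSpace.norm_eq, EuclideanSpace.norm_eq, Fin.sum_univ_two, Fin.sum_univ_two]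
  congr 1
  simp
  ring

theorem Ax_sub (θ : Sph 2) (z z' : E 2) : ‖Ax θ z - Ax θ z'‖ ≤ 2 * ‖z - z'‖ := by
  unfold Ax
  refine (vec_sub _ _ _ _).trans ?_
  rw [← inner_sub_left, ← inner_sub_left]
  have h1 := abs_real_inner_le_norm (z - z') (θ : E 2)
  have h2 := abs_real_inner_le_norm (z - z') (Jr (θ : E 2))
  rw [norm_Jr] at h2
  rw [norm_sph, mul_one] at h1 h2
  linarith

theorem cont_vec {X : Type} [TopologicalSpace X] {a b : X → ℝ} (ha : Continuous a)
    (hb : Continuous b) : Continuous (fun x => (!₂[a x, b x] : E 2)) := by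
  refine (PiLp.continuous_toLp 2 _).comp (continuous_pi fun i => ?_)
  fin_cases i
  · exact ha
  · exact hb

theorem cont_Jr : Continuous Jr := by
  unfold Jr
  refine cont_vec ?_ ?_
  · exact (EuclideanSpace.proj (1 : Fin 2) : E 2 →L[ℝ] ℝ).continuous.neg
  · exact (EuclideanSpace.proj (0 : Fin 2) : E 2 →L[ℝ] ℝ).continuous

theorem main : S_LIPP := by
  intro k hk M _ _ S s g hs0 hs1 hg
  obtain ⟨Kk, hk⟩ := hk
  obtain ⟨hP, -, -⟩ := SPH.t 1 le_rfl
  have hP' : IsProbabilityMeasure (sg (1 + 1)) := hP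
  obtain ⟨r1, -, -, -⟩ := RAD.t SPH.t (MON.t SPH.t) 1 le_rfl
  have hZl : ∀ q q', ‖Zg g q - Zg g q'‖ ≤ dist q q' := fun q q' => int_lip (d := 1) hg q q'
  have hkA : ∀ (θ : Sph 2) (z z' : E 2), |k (Ax θ z) - k (Ax θ z')| ≤ 2 * Kk * ‖z - z'‖ := by
    intro θ z z'
    have h1 := hk.dist_le_mul (Ax θ z) (Ax θ z')
    rw [Real.dist_eq, dist_eq_norm] at h1
    refine h1.trans ?_
    calc (Kk : ℝ) * ‖Ax θ z - Ax θ z'‖ ≤ Kk * (2 * ‖z - z'‖) :=
          mul_le_mul_of_nonneg_left (Ax_sub θ z z') (NNReal.coe_nonneg _)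
      _ = 2 * Kk * ‖z - z'‖ := by ring
  obtain ⟨b, hb⟩ : ∃ b, b = (√(1 - s ^ 2))⁻¹ := ⟨_, rfl⟩
  have hb0 : 0 ≤ b := by rw [hb]; positivity
  have hKk : (0 : ℝ) ≤ Kk := NNReal.coe_nonneg _
  have hz0 : 0 ≤ |zf 1 s| := abs_nonneg _
  obtain ⟨K, hK⟩ : ∃ K : ℝ, K = 2 * Kk + 1 + 2 * Kk * |zf 1 s| + b := ⟨_, rfl⟩
  have p1 : 0 ≤ 2 * (Kk : ℝ) := by positivity
  have p2 : 0 ≤ 2 * (Kk : ℝ) * |zf 1 s| := by positivity
  have hKp : 0 ≤ K := by rw [hK]; linarith
  refine ⟨⟨K, hKp⟩, fun θ => ?_, fun θ => ?_, fun θ x => ?_, ?_⟩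
  · refine LipschitzWith.of_dist_le_mul fun q q' => ?_
    rw [dist_eq_norm]
    change ‖Ph k g θ q - Ph k g θ q'‖ ≤ K * dist q q'
    unfold Ph
    refine (vec_sub _ _ _ _).trans ?_
    have h1 := hkA θ (Zg g q) (Zg g q')
    have h2 := hg.lip θ q q'
    have h3 : 2 * (Kk : ℝ) * ‖Zg g q - Zg g q'‖ ≤ 2 * Kk * dist q q' :=
      mul_le_mul_of_nonneg_left (hZl q q') p1
    have h4 : (2 * (Kk : ℝ) + 1) * dist q q' ≤ K * dist q q' :=
      mul_le_mul_of_nonneg_right (by rw [hK]; linarith) dist_nonneg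
    linarith
  · refine LipschitzOnWith.of_dist_le_mul fun y hy y' hy' => ?_
    rw [dist_eq_norm, dist_eq_norm]
    change ‖Ph0 k s θ y - Ph0 k s θ y'‖ ≤ K * ‖y - y'‖
    unfold Ph0
    refine (vec_sub _ _ _ _).trans ?_
    have h1 := hkA θ (zf 1 s • y) (zf 1 s • y')
    rw [← smul_sub, norm_smul, Real.norm_eq_abs] at h1
    have hin : ∀ w ∈ closedBall (0 : E 2) 1, |s * inner ℝ w (θ : E 2)| ≤ s := by
      intro w hw
      rw [abs_mul, abs_of_pos hs0]
      have h5 := abs_real_inner_le_norm w (θ : E 2)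
      rw [norm_sph, mul_one] at h5
      have h6 : ‖w‖ ≤ 1 := mem_closedBall_zero_iff.1 hw
      nlinarith
    have h2 := asin_lip hs0 hs1 (hin y hy) (hin y' hy')
    rw [← hb] at h2
    have h3 : |s * inner ℝ y (θ : E 2) - s * inner ℝ y' (θ : E 2)| ≤ ‖y - y'‖ := by
      rw [← mul_sub, ← inner_sub_left, abs_mul, abs_of_pos hs0]
      have h5 := abs_real_inner_le_norm (y - y') (θ : E 2)
      rw [norm_sph, mul_one] at h5
      nlinarith [norm_nonneg (y - y'), abs_nonneg (inner ℝ (y - y') (θ : E 2))]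
    have h4 := h2.trans (mul_le_mul_of_nonneg_left h3 hb0)
    have h5 : (2 * (Kk : ℝ) * |zf 1 s| + b) * ‖y - y'‖ ≤ K * ‖y - y'‖ :=
      mul_le_mul_of_nonneg_right (by rw [hK]; linarith) (norm_nonneg _)
    linarith
  · have hx1 : ‖(x : E (1 + 1))‖ = 1 := norm_sph x
    have h1 : Zg g (S.bd x) = zf 1 s • (x : E 2) := by
      have h2 := r1 s (x : E (1 + 1)) hx1
      have h3 : Zg g (S.bd x) = Zf (s • (x : E (1 + 1))) := by
        unfold Zg Zf
        congr 1
        funext θ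
        have h4 := hg.bdv θ x
        have h5 : g θ (S.bd x) = Real.arcsin (ip (s • (x : E (1 + 1))) θ) := by
          rw [h4]
          unfold ip
          rw [real_inner_smul_left]
        rw [h5]
      rw [h3]
      exact h2
    unfold Ph Ph0
    rw [h1]
    have h4 := hg.bdv θ x
    rw [h4]
  · have c1 : Continuous (fun z : Sph 2 × M => Zg g z.2) := by
      have h1 : LipschitzWith 1 (Zg g) :=
        LipschitzWith.of_dist_le_mul fun q q' => by
          rw [dist_eq_norm, NNReal.coe_one, one_mul]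
          exact hZl q q'
      exact h1.continuous.comp continuous_snd
    have c2 : Continuous (fun z : Sph 2 × M => (z.1 : E 2)) :=
      continuous_subtype_val.comp continuous_fst
    have c3 : Continuous (fun z : Sph 2 × M => Ax z.1 (Zg g z.2)) := by
      unfold Ax
      exact cont_vec (c1.inner c2) (c1.inner (cont_Jr.comp c2))
    have c4 : Continuous (fun z : Sph 2 × M => g z.1 z.2) := cont_g (d := 1) hg
    unfold Ph
    exact cont_vec (hk.continuous.comp c3) c4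

end Pool.Agent.N849.P1LIPP
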